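import Pool.Agent.TH998.Mex.Gen

/-!
# Orders of magnitude
-/

set_option autoImplicit false

namespace Pool.Agent.TH998.Mex

open Finset Pool.Agent.H63R3.PTT Pool.Agent.W834.NG Filter Asymptotics SimpleGraph

theorem one_le_em {s a : ℕ} (ha : 2 ≤ a) (hs : 2 ≤ s) (h : s ≤ a + 1) : 1 ≤ em s a := by
  obtain ⟨a', rfl⟩ : ∃ a', a = a' + 1 := ⟨a - 1, by omega⟩
  obtain ⟨t, rfl⟩ : ∃ t, s = t + 2 := ⟨s - 2, by omega⟩
  have h1 := one_le_ev (t := t) (a := a') (by omega) (by omega)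
  have h2 : (1 : ℝ) ≤ a' := by
    have : 1 ≤ a' := by omega
    exact_mod_cast this
  rw [← em_ev' (by omega)]
  have h3 : 0 ≤ ((a' + 1 : ℕ) - 1 : ℝ) / (2 * (a' + 1 : ℕ) - 1) := by
    apply div_nonneg
    · push_cast
      linarith
    · push_cast
      linarith
  have := mul_nonneg h3 (by linarith : 0 ≤ ev (t + 1) a' - 1)
  linarith

/-- upper bound, small cliques -/
theorem stacked_upper_small {a b s : ℕ} (ha : 2 ≤ a) (hs : 2 ≤ s) (hsa : s ≤ a + 1) {W : Type}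
    [Finite W] {F : SimpleGraph W} (hF : IsStacked a b F) :
    (fun m : ℕ => (mex s m F : ℝ)) =O[atTop] (fun m : ℕ => (m : ℝ) ^ em s a) := by
  obtain ⟨C, hC0, hC⟩ := upper_small (a := a) (b := b) (s := s) ha hs hsa
  exact isBigO_of_upper (by positivity) (fun V _ G m hm hG hGm =>
    upper_stacked (by omega) hs (one_le_em ha hs hsa) hC0 hC hF V G m hm hG hGm)

/-- upper bound, large cliques -/
theorem stacked_upper_large {a b s : ℕ} (ha : 2 ≤ a) (hsa : a ≤ s) {W : Type}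
    [Finite W] {F : SimpleGraph W} (hF : IsStacked a b F) :
    (fun m : ℕ => (mex s m F : ℝ)) =O[atTop] (fun m : ℕ => (m : ℝ) ^ em a a) := by
  obtain ⟨C, hC0, hC⟩ := upper_large (a := a) (b := b) (s := s) ha hsa
  exact isBigO_of_upper (by positivity) (fun V _ G m hm hG hGm =>
    upper_stacked (by omega) (by omega) (one_le_em ha ha (by omega)) hC0 hC hF V G m hm hG hGm)

theorem lower_general {a b s : ℕ} (ha : 2 ≤ a) (hs : 3 ≤ s) (hsa : s ≤ a + 1)
    (hb : (s - 2) * (a - 1).factorial < b) :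
    (fun m : ℕ => (m : ℝ) ^ em s a) =O[atTop]
      (fun m : ℕ => (mex s m (completeBipartiteGraph (Fin a) (Fin b)) : ℝ)) :=
  (theta_general ha hs hsa hb).2

theorem stacked_theta {a b b' s : ℕ} (ha : 2 ≤ a) (hs : 3 ≤ s) (hsa : s ≤ a + 1)
    (hb : (s - 2) * (a - 1).factorial < b') {W : Type} [Finite W] {F : SimpleGraph W}
    (hF : IsStacked a b F) (hKF : (completeBipartiteGraph (Fin a) (Fin b')).IsContained F) :
    (fun m : ℕ => (mex s m F : ℝ)) =Θ[atTop] (fun m : ℕ => (m : ℝ) ^ em s a) := by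
  obtain ⟨C, hC0, hC⟩ := upper_small (a := a) (b := b) (s := s) ha (by omega) hsa
  exact theta_of (by omega) (by omega) (one_le_em ha (by omega) hsa) hC0 hC
    (lower_general ha hs hsa hb) hF hKF

theorem lower_mobius {a b s : ℕ} (ha : 2 ≤ a) (hs : 3 ≤ s)
    (hb : (s - 2) * (a - 1).factorial < b) :
    (fun m : ℕ => (m : ℝ) ^ (3 * ((a : ℝ) - 1) / (2 * a - 1))) =O[atTop]
      (fun m : ℕ => (mex s m (completeBipartiteGraph (Fin a) (Fin b)) : ℝ)) := by
  obtain ⟨n, rfl⟩ : ∃ n, a = n + 1 := ⟨a - 1, by omega⟩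
  have hb2 : 2 ≤ b := by
    have h1 : 1 ≤ (n + 1 - 1).factorial := Nat.factorial_pos _
    have h2 : 1 * 1 ≤ (s - 2) * (n + 1 - 1).factorial := Nat.mul_le_mul (by omega) h1
    omega
  have he : 3 * (((n + 1 : ℕ) : ℝ) - 1) / (2 * (n + 1 : ℕ) - 1) = 3 * (n : ℝ) / (2 * n + 1) := by
    push_cast
    congr 1 <;> ring
  rw [he]
  exact mex_lower ha hb2 (by omega) (2 * n + 1) 1 s (by omega) le_rfl _
    (4 * s ^ s * s ^ 3) (by positivity) (by positivity)
    (fun k hk => fam_mobius (by omega) hs hb k hk)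

/-- the lower bound from independent constants, for all `s ≤ 2 a` -/
theorem lower_wide {a b s : ℕ} (ha : 2 ≤ a) (hs : 3 ≤ s) (hsa : s ≤ 2 * a)
    (hb : (s - 2) * (a - 1).factorial < b) :
    (fun m : ℕ => (m : ℝ) ^ em s a) =O[atTop]
      (fun m : ℕ => (mex s m (completeBipartiteGraph (Fin a) (Fin b)) : ℝ)) := by
  obtain ⟨n, rfl⟩ : ∃ n, a = n + 1 := ⟨a - 1, by omega⟩
  have hb2 : 2 ≤ b := by
    have h1 : 1 ≤ (n + 1 - 1).factorial := Nat.factorial_pos _
    have h2 : 1 * 1 ≤ (s - 2) * (n + 1 - 1).factorial := Nat.mul_le_mul (by omega) h1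
    omega
  have h0 : 0 ≤ em s (n + 1) := by
    unfold em
    have h1 : (s : ℝ) ≤ 2 * (n + 1 : ℕ) := by exact_mod_cast hsa
    have h2 : (1 : ℝ) ≤ (n + 1 : ℕ) := by
      have : 1 ≤ n + 1 := by omega
      exact_mod_cast this
    have h3 : 0 ≤ 2 * ((n + 1 : ℕ) : ℝ) + 1 - s := by linarith
    have h4 : 0 ≤ 2 * (2 * ((n + 1 : ℕ) : ℝ) - 1) := by linarith
    positivity
  exact mex_lower ha hb2 (by omega) (2 * n + 1) 1 s (by omega) le_rfl (em s (n + 1))
    ((2 * s) ^ s) h0 (by positivity)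
    (fun k hk => fam_general (by omega) hs hb k hk)

theorem lower_plain {b s : ℕ} (hs : 3 ≤ s) (hs5 : s ≤ 5) (hb : 3 ≤ b) :
    (fun m : ℕ => (m : ℝ) ^ ((6 : ℝ) / 5)) =O[atTop]
      (fun m : ℕ => (mex s m (completeBipartiteGraph (Fin 3) (Fin b)) : ℝ)) :=
  mex_lower (by norm_num) (by omega) (by omega) 10 32 2 (by norm_num) (by norm_num) _
    (4 * s ^ 3) (by norm_num) (by positivity) (fun k hk => fam_plain hs hs5 (by omega) k hk)

theorem em_three : em 3 3 = 6 / 5 := by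
  unfold em
  norm_num

theorem theta_three {b b' s : ℕ} (hs : 3 ≤ s) (hb : (s ≤ 5 ∧ 3 ≤ b') ∨ 2 * (s - 2) < b')
    {W : Type} [Finite W] {F : SimpleGraph W} (hF : IsStacked 3 b F)
    (hKF : (completeBipartiteGraph (Fin 3) (Fin b')).IsContained F) :
    (fun m : ℕ => (mex s m F : ℝ)) =Θ[atTop] (fun m : ℕ => (m : ℝ) ^ ((6 : ℝ) / 5)) := by
  obtain ⟨C, hC0, hC⟩ := upper_large (a := 3) (b := b) (s := s) (by norm_num) hs
  have hlow : (fun m : ℕ => (m : ℝ) ^ ((6 : ℝ) / 5)) =O[atTop]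
      (fun m : ℕ => (mex s m (completeBipartiteGraph (Fin 3) (Fin b')) : ℝ)) := by
    rcases hb with ⟨h5, h3⟩ | hb
    · exact lower_plain hs h5 h3
    · have h := lower_mobius (a := 3) (b := b') (s := s) (by norm_num) hs (by
        have : (3 - 1).factorial = 2 := rfl
        rw [this]
        omega)
      have e : 3 * (((3 : ℕ) : ℝ) - 1) / (2 * (3 : ℕ) - 1) = 6 / 5 := by norm_num
      rwa [e] at h
  have hup := hC
  rw [em_three] at hup
  exact theta_of (by norm_num) (by omega) (by norm_num) hC0 hup hlow hF hKF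

end Pool.Agent.TH998.Mex
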