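import Pool.Agent.TH998.Mex.Pad

/-!
# The families of graphs
-/

set_option autoImplicit false

namespace Pool.Agent.TH998.Mex

open Finset Pool.Agent.H63R3.PTT Pool.Agent.W834.NG Filter Asymptotics

/-- the fields -/
theorem exists_field (m l : ℕ) (hm : 1 ≤ m) (hl : 1 ≤ l) :
    ∃ (K : Type) (_ : Field K) (_ : CharP K 2) (_ : Fintype K) (φ : K →+* K) (_ : Finite (AA φ)),
      (∀ x, φ^[m] x = x) ∧ Fintype.card K = 2 ^ (m * l) ∧ Nat.card (AA φ) ≤ 2 ^ l ∧
        ∀ x, φ x = x ^ (2 ^ l) := by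
  classical
  have : Fact (Nat.Prime 2) := ⟨Nat.prime_two⟩
  have hml : m * l ≠ 0 := by positivity
  let K := GaloisField 2 (m * l)
  let _ : Fintype K := Fintype.ofFinite K
  have hcard : Fintype.card K = 2 ^ (m * l) := by
    rw [← Nat.card_eq_fintype_card]
    exact GaloisField.card 2 (m * l) hml
  refine ⟨K, inferInstance, inferInstance, inferInstance, iterateFrobenius K 2 l, inferInstance,
    ?_, hcard, ?_, fun x => iterateFrobenius_def 2 l x⟩
  · intro x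
    have hit : ∀ (j : ℕ) (x : K), (iterateFrobenius K 2 l)^[j] x = x ^ (2 ^ (l * j)) := by
      intro j x
      induction j with
      | zero => simp
      | succ j ih =>
        rw [Function.iterate_succ_apply', ih, iterateFrobenius_def, ← pow_mul, ← pow_add]
        congr 2
    rw [hit, mul_comm l m, ← hcard, FiniteField.pow_card]
  · let _ : Fintype (AA (iterateFrobenius K 2 l)) := Fintype.ofFinite _
    rw [Nat.card_eq_fintype_card]
    exact (AA_le l K hl).trans (Nat.sub_le _ _)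

theorem edges_le {K : Type} [Field K] [Fintype K] {φ : K →+* K} [Finite (AA φ)] {m l : ℕ}
    (hK : Fintype.card K = 2 ^ (m * l)) (hA : Nat.card (AA φ) ≤ 2 ^ l) {ι : Type}
    (χ : K → ι) (c : Sym2 ι → K) :
    (CG φ m χ c).edgeSet.ncard ≤ 1 * 2 ^ ((2 * m + 1) * l) := by
  let _ : Fintype (AA φ) := Fintype.ofFinite _
  have h1 := CG_edges (φ := φ) (m := m) χ c
  rw [hK, ← Nat.card_eq_fintype_card] at h1
  have h2 : 2 ^ (m * l) * Nat.card (AA φ) * 2 ^ (m * l) ≤ 2 ^ (m * l) * 2 ^ l * 2 ^ (m * l) := by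
    gcongr
  have h3 : 2 ^ (m * l) * 2 ^ l * 2 ^ (m * l) = 2 ^ ((2 * m + 1) * l) := by
    rw [← pow_add, ← pow_add]
    congr 1
    ring
  omega

theorem real_step {m l s X : ℕ} (hs : 3 ≤ s) (hl : s ≤ l) (hm : 1 ≤ m)
    (h : (2 ^ (m * l) / s) ^ s ≤ X * (2 ^ l) ^ (s.choose 2 - s)) :
    ((2 : ℝ) ^ ((2 * m + 1) * l)) ^ em s (m + 1) ≤ (2 * s) ^ s * X := by
  set Q : ℝ := (2 : ℝ) ^ l with hQ
  have hQ0 : 0 < Q := by positivity
  set D : ℕ := s.choose 2 - s with hD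
  have hchoose : s ≤ s.choose 2 := by
    rw [Nat.choose_two_right, Nat.le_div_iff_mul_le (by norm_num)]
    have : 2 ≤ s - 1 := by omega
    exact Nat.mul_le_mul_left s this
  have hDr : (D : ℝ) = s * (s - 1) / 2 - s := by
    rw [hD, Nat.cast_sub hchoose, Nat.cast_choose_two]
  have hs2 : s ≤ 2 ^ (m * l) := by
    calc s ≤ l := hl
      _ ≤ 2 ^ l := Nat.lt_two_pow_self.le
      _ ≤ 2 ^ (m * l) := Nat.pow_le_pow_right (by norm_num) (Nat.le_mul_of_pos_left _ hm)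
  have hfl : 2 ^ (m * l) ≤ 2 * s * (2 ^ (m * l) / s) := by
    have h1 := Nat.div_add_mod (2 ^ (m * l)) s
    have h2 := Nat.mod_lt (2 ^ (m * l)) (by omega : s > 0)
    have h3 : 1 ≤ 2 ^ (m * l) / s := (Nat.one_le_div_iff (by omega)).2 hs2
    have h4 : s * 1 ≤ s * (2 ^ (m * l) / s) := Nat.mul_le_mul_left _ h3
    have h5 : 2 * s * (2 ^ (m * l) / s) = s * (2 ^ (m * l) / s) + s * (2 ^ (m * l) / s) := by ring
    omega
  have h1 : (2 ^ (m * l)) ^ s ≤ (2 * s) ^ s * (X * (2 ^ l) ^ D) := by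
    calc (2 ^ (m * l)) ^ s ≤ (2 * s * (2 ^ (m * l) / s)) ^ s := Nat.pow_le_pow_left hfl s
      _ = (2 * s) ^ s * (2 ^ (m * l) / s) ^ s := mul_pow _ _ _
      _ ≤ _ := Nat.mul_le_mul_left _ h
  have h2 : (Q ^ m) ^ s ≤ (2 * s) ^ s * (X * Q ^ D) := by
    have e : Q ^ m = (2 : ℝ) ^ (m * l) := by rw [hQ, ← pow_mul, mul_comm l m]
    rw [e, hQ]
    exact_mod_cast h1
  have h3 : ((2 : ℝ) ^ ((2 * m + 1) * l)) ^ em s (m + 1) * Q ^ D = (Q ^ m) ^ s := by
    have e1 : ((2 : ℝ) ^ ((2 * m + 1) * l)) = Q ^ ((2 * m + 1 : ℕ) : ℝ) := by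
      rw [Real.rpow_natCast, hQ, ← pow_mul, mul_comm l]
    have e2 : (Q ^ m) ^ s = Q ^ ((m * s : ℕ) : ℝ) := by
      rw [Real.rpow_natCast, pow_mul]
    rw [e1, e2, ← Real.rpow_natCast Q D, ← Real.rpow_mul hQ0.le, ← Real.rpow_add hQ0, hDr]
    congr 1
    unfold em
    have h4 : 2 * ((m + 1 : ℕ) : ℝ) - 1 ≠ 0 := by
      push_cast
      have : (1 : ℝ) ≤ m := by exact_mod_cast hm
      linarith
    have h5 : ((2 * m + 1 : ℕ) : ℝ) = 2 * ((m + 1 : ℕ) : ℝ) - 1 := by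
      push_cast
      ring
    rw [h5]
    field_simp
    push_cast
    ring
  have hQD : 0 < Q ^ D := by positivity
  have h4 : ((2 : ℝ) ^ ((2 * m + 1) * l)) ^ em s (m + 1) * Q ^ D ≤ ((2 * s) ^ s * X) * Q ^ D := by
    rw [h3]
    calc (Q ^ m) ^ s ≤ (2 * s) ^ s * (X * Q ^ D) := h2
      _ = _ := by ring
  exact le_of_mul_le_mul_right h4 hQD

theorem fam_general {m s b : ℕ} (hm : 1 ≤ m) (hs : 3 ≤ s) (hb : (s - 2) * m.factorial < b)
    (l : ℕ) (hl : s ≤ l) : ∃ (V : Type) (_ : Finite V) (G : SimpleGraph V), NoK G (m + 1) b ∧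
      G.edgeSet.ncard ≤ 1 * 2 ^ ((2 * m + 1) * l) ∧
      ((2 : ℝ) ^ ((2 * m + 1) * l)) ^ em s (m + 1) ≤ (2 * s) ^ s * numCliques s G := by
  classical
  obtain ⟨K, _, _, _, φ, _, hφ, hK, hA, _⟩ := exists_field m l hm (by omega)
  let _ : Fintype (AA φ) := Fintype.ofFinite _
  obtain ⟨χ, hχ⟩ := exists_col K s (by omega)
  obtain ⟨c, hdiag, hc⟩ := CG_cliques hm hφ χ
  refine ⟨K × AA φ, inferInstance, CG φ m χ c, ?_, edges_le hK hA χ c, ?_⟩
  · refine CG_noK hm χ c hdiag ?_ (by rw [Fintype.card_fin]; exact hb)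
    refine lt_of_le_of_lt ?_ hb
    exact Nat.le_mul_of_pos_left _ (by omega)
  · refine real_step hs hl hm ?_
    rw [numCliques_cl]
    rw [← Nat.card_eq_fintype_card (α := AA φ)] at hc
    have hApos : 0 < Nat.card (AA φ) := by
      have : Nonempty (AA φ) := ⟨⟨1, one_ne_zero, map_one φ⟩⟩
      exact Nat.card_pos
    have hchoose : s ≤ s.choose 2 := by
      rw [Nat.choose_two_right, Nat.le_div_iff_mul_le (by norm_num)]
      have : 2 ≤ s - 1 := by omega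
      exact Nat.mul_le_mul_left s this
    have h1 : (2 ^ (m * l) / s) ^ s ≤ ∏ i : Fin s, Fintype.card {k : K // χ k = i} := by
      calc (2 ^ (m * l) / s) ^ s = ∏ _i : Fin s, 2 ^ (m * l) / s := by
            rw [Finset.prod_const, Finset.card_univ, Fintype.card_fin]
        _ ≤ _ := Finset.prod_le_prod' fun i _ => by rw [← hK]; exact hχ i
    have h2 : (2 ^ (m * l) / s) ^ s * Nat.card (AA φ) ^ s ≤
        (cl (CG φ m χ c) s univ * (2 ^ l) ^ (s.choose 2 - s)) * Nat.card (AA φ) ^ s := by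
      calc (2 ^ (m * l) / s) ^ s * Nat.card (AA φ) ^ s
          ≤ (∏ i : Fin s, Fintype.card {k : K // χ k = i}) * Nat.card (AA φ) ^ s :=
            Nat.mul_le_mul_right _ h1
        _ ≤ cl (CG φ m χ c) s univ * Nat.card (AA φ) ^ s.choose 2 := hc
        _ = (cl (CG φ m χ c) s univ * Nat.card (AA φ) ^ (s.choose 2 - s)) *
              Nat.card (AA φ) ^ s := by
            rw [mul_assoc, ← pow_add, Nat.sub_add_cancel hchoose]
        _ ≤ _ := by gcongr
    exact Nat.le_of_mul_le_mul_right h2 (pow_pos hApos s)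

theorem em_nonneg {s a : ℕ} (ha : 1 ≤ a) (h : s ≤ a + 1) : 0 ≤ em s a := by
  unfold em
  have h1 : (s : ℝ) ≤ a + 1 := by exact_mod_cast h
  have h2 : (1 : ℝ) ≤ a := by exact_mod_cast ha
  have h3 : 0 ≤ 2 * (a : ℝ) + 1 - s := by linarith
  have h4 : 0 ≤ 2 * (2 * (a : ℝ) - 1) := by linarith
  positivity

/-- the order of magnitude for small cliques -/
theorem theta_general {a b s : ℕ} (ha : 2 ≤ a) (hs : 3 ≤ s) (hsa : s ≤ a + 1)
    (hb : (s - 2) * (a - 1).factorial < b) :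
    (fun m : ℕ => (mex s m (completeBipartiteGraph (Fin a) (Fin b)) : ℝ)) =Θ[atTop]
      (fun m : ℕ => (m : ℝ) ^ em s a) := by
  refine ⟨mex_upper_small ha (by omega) hsa, ?_⟩
  obtain ⟨n, rfl⟩ : ∃ n, a = n + 1 := ⟨a - 1, by omega⟩
  have hb2 : 2 ≤ b := by
    have h1 : 1 ≤ (n + 1 - 1).factorial := Nat.factorial_pos _
    have h2 : 1 * 1 ≤ (s - 2) * (n + 1 - 1).factorial := Nat.mul_le_mul (by omega) h1
    omega
  exact mex_lower ha hb2 (by omega) (2 * n + 1) 1 s (by omega) le_rfl (em s (n + 1))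
    ((2 * s) ^ s) (em_nonneg (by omega) hsa) (by positivity)
    (fun k hk => fam_general (by omega) hs hb k hk)

end Pool.Agent.TH998.Mex
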