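import Pool.Agent.TH998.Mex.Mob2

/-!
# Graphs obtained from complete bipartite graphs by stacking
-/

set_option autoImplicit false

namespace Pool.Agent.TH998.Mex

open Finset Pool.Agent.H63R3.PTT Pool.Agent.W834.NG Filter Asymptotics SimpleGraph

/-- `F` is contained in a graph obtained from `K_{a,b}` by adding vertices one at a time, each
joined (among the vertices present) only to the two ends of an edge: after enumerating the vertices
(by `e`) and possibly adding edges (giving `T`), the first `a + b` vertices are numbered by `g` so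
that `T` has only edges of `K_{a,b}` between them, and the neighbours of each later vertex among the
vertices of smaller number are contained in some edge of `T` whose ends have smaller number. -/
def IsStacked (a b : ℕ) {W : Type} (F : SimpleGraph W) : Prop :=
  ∃ (n : ℕ) (e : W ≃ Fin n) (T : SimpleGraph W) (g : Fin a ⊕ Fin b → W), F ≤ T ∧
    Function.Injective g ∧ (∀ i : W, (e i : ℕ) < a + b ↔ ∃ x, g x = i) ∧
    (∀ x y, T.Adj (g x) (g y) → (completeBipartiteGraph (Fin a) (Fin b)).Adj x y) ∧
    ∀ i : W, a + b ≤ (e i : ℕ) → ∃ j k : W, e j < e i ∧ e k < e i ∧ T.Adj j k ∧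
      ∀ l : W, e l < e i → T.Adj l i → l = j ∨ l = k

theorem isStacked_self (a b : ℕ) : IsStacked a b (completeBipartiteGraph (Fin a) (Fin b)) := by
  refine ⟨a + b, finSumFinEquiv, completeBipartiteGraph (Fin a) (Fin b), id, le_rfl,
    Function.injective_id, ?_, fun x y h => h, ?_⟩
  · intro i
    exact ⟨fun _ => ⟨i, rfl⟩, fun _ => (finSumFinEquiv i).2⟩
  · intro i hi
    have := (finSumFinEquiv i).2
    omega

/-- greedy embedding -/
theorem embed_stacked {a b : ℕ} {W V : Type} [Finite W] [Finite V] {F : SimpleGraph W}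
    (hF : IsStacked a b F) (ha : 1 ≤ a) (H : SimpleGraph V)
    (hH : ∀ x y, H.Adj x y → Nat.card W ≤ {z | H.Adj x z ∧ H.Adj y z}.ncard)
    (hK : (completeBipartiteGraph (Fin a) (Fin b)).IsContained H) : F.IsContained H := by
  classical
  have := Fintype.ofFinite W
  obtain ⟨n, e, T, g, hFT, hg, hbase, hgT, hT⟩ := hF
  obtain ⟨φ⟩ := hK
  have hn : Nat.card W = n := by rw [Nat.card_congr e, Nat.card_fin]
  rw [hn] at hH
  let v0 : V := φ (Sum.inl ⟨0, ha⟩)
  have habn : a + b ≤ n := by
    have h1 := Nat.card_le_card_of_injective g hg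
    rw [hn] at h1
    simpa using h1
  have key : ∀ i, a + b ≤ i → i ≤ n → ∃ f : W → V,
      (∀ x y : W, (e x : ℕ) < i → (e y : ℕ) < i → f x = f y → x = y) ∧
      (∀ x y : W, (e x : ℕ) < i → (e y : ℕ) < i → T.Adj x y → H.Adj (f x) (f y)) := by
    intro i hi
    induction i, hi using Nat.le_induction with
    | base =>
      intro _
      refine ⟨Function.extend g (fun z => φ z) (fun _ => v0), ?_, ?_⟩
      · intro x y hx hy hxy
        obtain ⟨x', rfl⟩ := (hbase x).1 hx
        obtain ⟨y', rfl⟩ := (hbase y).1 hy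
        rw [hg.extend_apply, hg.extend_apply] at hxy
        rw [φ.injective hxy]
      · intro x y hx hy hxy
        obtain ⟨x', rfl⟩ := (hbase x).1 hx
        obtain ⟨y', rfl⟩ := (hbase y).1 hy
        rw [hg.extend_apply, hg.extend_apply]
        exact φ.toHom.map_adj (hgT _ _ hxy)
    | succ i hi ih =>
      intro hle
      have hin : i < n := by omega
      obtain ⟨f, hf1, hf2⟩ := ih (by omega)
      set v := e.symm ⟨i, hin⟩ with hv
      have hev : (e v : ℕ) = i := by rw [hv, Equiv.apply_symm_apply]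
      obtain ⟨j, k, hj, hk, hjk, hl⟩ := hT v (by rw [hev]; exact hi)
      have hj' : (e j : ℕ) < i := by rw [← hev]; exact hj
      have hk' : (e k : ℕ) < i := by rw [← hev]; exact hk
      have hadj : H.Adj (f j) (f k) := hf2 j k hj' hk' hjk
      have hcard := hH _ _ hadj
      have hex : ∃ w, (H.Adj (f j) w ∧ H.Adj (f k) w) ∧ ∀ x, (e x : ℕ) < i → f x ≠ w := by
        by_contra hcon
        push Not at hcon
        have hsub : {z | H.Adj (f j) z ∧ H.Adj (f k) z} ⊆
            (((univ.filter fun x : W => (e x : ℕ) < i).image f : Finset V) : Set V) := by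
          intro z hz
          obtain ⟨x, hx, hxz⟩ := hcon z hz
          rw [Finset.mem_coe, Finset.mem_image]
          exact ⟨x, Finset.mem_filter.2 ⟨Finset.mem_univ _, hx⟩, hxz⟩
        have h1 := Set.ncard_le_ncard hsub (Set.toFinite _)
        rw [Set.ncard_coe_finset] at h1
        have h2 := Finset.card_image_le (s := univ.filter fun x : W => (e x : ℕ) < i) (f := f)
        have h3 : (univ.filter fun x : W => (e x : ℕ) < i).card ≤ i := by
          have h := Finset.card_le_card_of_injOn
            (s := univ.filter fun x : W => (e x : ℕ) < i)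
            (t := Finset.range i) (fun x => (e x : ℕ))
            (fun x hx => by
              rw [Finset.mem_coe, Finset.mem_filter] at hx
              rw [Finset.mem_coe, Finset.mem_range]
              exact hx.2)
            (fun x _ y _ hxy => e.injective (Fin.ext hxy))
          rwa [Finset.card_range] at h
        omega
      obtain ⟨w, ⟨hw1, hw2⟩, hw3⟩ := hex
      have hne : ∀ x : W, (e x : ℕ) < i → x ≠ v := by
        rintro x hx rfl
        omega
      have hlt : ∀ x : W, (e x : ℕ) < i + 1 → x = v ∨ (e x : ℕ) < i := by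
        intro x hx
        rcases Nat.lt_succ_iff_lt_or_eq.1 hx with h | h
        · exact Or.inr h
        · left
          apply e.injective
          apply Fin.ext
          rw [h, hev]
      refine ⟨Function.update f v w, ?_, ?_⟩
      · intro x y hx hy hxy
        rcases hlt x hx with rfl | hx' <;> rcases hlt y hy with rfl | hy'
        · rfl
        · rw [Function.update_self, Function.update_of_ne (hne y hy')] at hxy
          exact absurd hxy.symm (hw3 y hy')
        · rw [Function.update_self, Function.update_of_ne (hne x hx')] at hxy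
          exact absurd hxy (hw3 x hx')
        · rw [Function.update_of_ne (hne x hx'), Function.update_of_ne (hne y hy')] at hxy
          exact hf1 x y hx' hy' hxy
      · have hstep : ∀ x : W, (e x : ℕ) < i → T.Adj x v → H.Adj (f x) w := by
          intro x hx hxv
          rcases hl x (by rw [Fin.lt_def, hev]; exact hx) hxv with h | h
          · rw [h]; exact hw1
          · rw [h]; exact hw2
        intro x y hx hy hxy
        rcases hlt x hx with rfl | hx' <;> rcases hlt y hy with rfl | hy'
        · exact absurd rfl hxy.ne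
        · rw [Function.update_self, Function.update_of_ne (hne y hy')]
          exact (hstep y hy' hxy.symm).symm
        · rw [Function.update_self, Function.update_of_ne (hne x hx')]
          exact hstep x hx' hxy
        · rw [Function.update_of_ne (hne x hx'), Function.update_of_ne (hne y hy')]
          exact hf2 x y hx' hy' hxy
  obtain ⟨f, hf1, hf2⟩ := key n habn le_rfl
  refine ⟨⟨⟨f, ?_⟩, ?_⟩⟩
  · intro x y hxy
    exact hf2 x y (e x).2 (e y).2 (hFT hxy)
  · intro x y hxy
    exact hf1 x y (e x).2 (e y).2 hxy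

/-- deleting an edge in few triangles destroys few cliques -/
theorem numCliques_delete {V : Type} [Finite V] (s D : ℕ) (G : SimpleGraph V) {x y : V}
    (hxy : G.Adj x y) (hlt : {z | G.Adj x z ∧ G.Adj y z}.ncard < D) :
    numCliques s G ≤ numCliques s (G.deleteEdges {s(x, y)}) + 2 ^ D := by
  classical
  have := Fintype.ofFinite V
  set H := G.deleteEdges {s(x, y)} with hH
  set N := {z | G.Adj x z ∧ G.Adj y z} with hN
  have hNcard : N.ncard = (N.toFinset).card := Set.ncard_eq_toFinset_card' N
  have hsub : {S : Finset V | G.IsNClique s S} ⊆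
      {S : Finset V | H.IsNClique s S} ∪
        ((N.toFinset.powerset.image fun A => insert x (insert y A) : Finset (Finset V)) :
          Set (Finset V)) := by
    intro S hS
    by_cases hxS : x ∈ S ∧ y ∈ S
    · right
      rw [Finset.mem_coe, Finset.mem_image]
      refine ⟨(S.erase x).erase y, ?_, ?_⟩
      · rw [Finset.mem_powerset]
        intro z hz
        rw [Finset.mem_erase, Finset.mem_erase] at hz
        rw [Set.mem_toFinset]
        exact ⟨hS.1 hxS.1 hz.2.2 (Ne.symm hz.2.1), hS.1 hxS.2 hz.2.2 (Ne.symm hz.1)⟩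
      · rw [Finset.insert_erase, Finset.insert_erase hxS.1]
        rw [Finset.mem_erase]
        exact ⟨hxy.ne.symm, hxS.2⟩
    · left
      refine ⟨?_, hS.2⟩
      intro a ha b hb hab
      rw [hH, deleteEdges_adj]
      refine ⟨hS.1 ha hb hab, ?_⟩
      intro h
      rw [Set.mem_singleton_iff, Sym2.eq_iff] at h
      rcases h with ⟨rfl, rfl⟩ | ⟨rfl, rfl⟩
      · exact hxS ⟨ha, hb⟩
      · exact hxS ⟨hb, ha⟩
  calc numCliques s G ≤ ({S : Finset V | H.IsNClique s S} ∪
      ((N.toFinset.powerset.image fun A => insert x (insert y A) : Finset (Finset V)) :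
        Set (Finset V))).ncard := Set.ncard_le_ncard hsub (Set.toFinite _)
    _ ≤ _ := Set.ncard_union_le _ _
    _ ≤ numCliques s H + 2 ^ D := by
      apply Nat.add_le_add le_rfl
      rw [Set.ncard_coe_finset]
      refine Finset.card_image_le.trans ?_
      rw [Finset.card_powerset]
      apply Nat.pow_le_pow_right (by norm_num)
      omega

/-- a subgraph all of whose edges are in many triangles -/
theorem strip {V : Type} [Finite V] (s D : ℕ) : ∀ (m : ℕ) (G : SimpleGraph V),
    G.edgeSet.ncard = m → ∃ H ≤ G,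
      (∀ x y, H.Adj x y → D ≤ {z | H.Adj x z ∧ H.Adj y z}.ncard) ∧
      numCliques s G ≤ numCliques s H + 2 ^ D * m := by
  intro m
  induction m with
  | zero =>
    intro G hm
    have h0 : G.edgeSet = ∅ := (Set.ncard_eq_zero (Set.toFinite _)).1 hm
    have h1 : G = ⊥ := by
      rwa [edgeSet_eq_empty] at h0
    refine ⟨G, le_rfl, ?_, Nat.le_add_right _ _⟩
    intro x y hxy
    rw [h1] at hxy
    exact absurd hxy (by simp)
  | succ m ih =>
    intro G hm
    by_cases hG : ∀ x y, G.Adj x y → D ≤ {z | G.Adj x z ∧ G.Adj y z}.ncard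
    · exact ⟨G, le_rfl, hG, Nat.le_add_right _ _⟩
    · push Not at hG
      obtain ⟨x, y, hxy, hlt⟩ := hG
      have hHe : (G.deleteEdges {s(x, y)}).edgeSet.ncard = m := by
        rw [edgeSet_deleteEdges]
        have h1 : s(x, y) ∈ G.edgeSet := hxy
        rw [Set.ncard_sdiff_singleton_of_mem h1, hm]
        rfl
      obtain ⟨H, hH1, hH2, hH3⟩ := ih _ hHe
      refine ⟨H, hH1.trans (deleteEdges_le _), hH2, ?_⟩
      have h1 := numCliques_delete s D G hxy hlt
      calc numCliques s G ≤ _ := h1
        _ ≤ (numCliques s H + 2 ^ D * m) + 2 ^ D := Nat.add_le_add hH3 le_rfl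
        _ = _ := by ring

theorem numCliques_bot {V : Type} {s : ℕ} (hs : 2 ≤ s) :
    numCliques s (⊥ : SimpleGraph V) = 0 := by
  rw [numCliques]
  have : {S : Finset V | (⊥ : SimpleGraph V).IsNClique s S} = ∅ := by
    exact cliqueSet_bot (n := s) (by omega)
  rw [this]
  simp

/-- from `K_{a,b}` to stacked graphs -/
theorem upper_stacked {a b s : ℕ} (ha : 1 ≤ a) (hs : 2 ≤ s) {E C : ℝ} (hE : 1 ≤ E) (hC : 0 < C)
    (hup : ∀ (V : Type) [Finite V] (G : SimpleGraph V) (m : ℕ), 1 ≤ m →
      (completeBipartiteGraph (Fin a) (Fin b)).Free G → G.edgeSet.ncard = m →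
      (numCliques s G : ℝ) ≤ C * (m : ℝ) ^ E)
    {W : Type} [Finite W] {F : SimpleGraph W} (hF : IsStacked a b F)
    (V : Type) [Finite V] (G : SimpleGraph V) (m : ℕ) (hm : 1 ≤ m) (hG : F.Free G)
    (hGm : G.edgeSet.ncard = m) :
    (numCliques s G : ℝ) ≤ (C + 2 ^ Nat.card W) * (m : ℝ) ^ E := by
  obtain ⟨H, hHG, hH, hcount⟩ := strip s (Nat.card W) m G hGm
  have hfree : (completeBipartiteGraph (Fin a) (Fin b)).Free H := by
    intro hcon
    exact hG ((embed_stacked hF ha H hH hcon).mono_right hHG)
  have hm1 : (1 : ℝ) ≤ m := by exact_mod_cast hm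
  have hHm : H.edgeSet.ncard ≤ m := by
    rw [← hGm]
    exact Set.ncard_le_ncard (edgeSet_mono hHG) (Set.toFinite _)
  have h1 : (numCliques s H : ℝ) ≤ C * (m : ℝ) ^ E := by
    rcases Nat.eq_zero_or_pos H.edgeSet.ncard with h0 | h0
    · have h2 : H.edgeSet = ∅ := (Set.ncard_eq_zero (Set.toFinite _)).1 h0
      rw [edgeSet_eq_empty] at h2
      rw [h2, numCliques_bot hs]
      simp only [Nat.cast_zero]
      positivity
    · refine (hup V H _ h0 hfree rfl).trans ?_
      apply mul_le_mul_of_nonneg_left _ hC.le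
      apply Real.rpow_le_rpow (Nat.cast_nonneg _) (by exact_mod_cast hHm) (by linarith)
  have h2 : (m : ℝ) ≤ (m : ℝ) ^ E := by
    calc (m : ℝ) = (m : ℝ) ^ (1 : ℝ) := (Real.rpow_one _).symm
      _ ≤ _ := Real.rpow_le_rpow_of_exponent_le hm1 hE
  have h3 : (numCliques s G : ℝ) ≤ numCliques s H + 2 ^ Nat.card W * m := by
    exact_mod_cast hcount
  calc (numCliques s G : ℝ) ≤ numCliques s H + 2 ^ Nat.card W * m := h3
    _ ≤ C * (m : ℝ) ^ E + 2 ^ Nat.card W * (m : ℝ) ^ E := by gcongr
    _ = _ := by ring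

theorem bdd_of_upper {s m : ℕ} {E C : ℝ} {W : Type} {F : SimpleGraph W}
    (hup : ∀ (V : Type) [Finite V] (G : SimpleGraph V), F.Free G → G.edgeSet.ncard = m →
      (numCliques s G : ℝ) ≤ C * (m : ℝ) ^ E) :
    BddAbove {c | ∃ (V : Type) (_ : Finite V) (G : SimpleGraph V),
      F.Free G ∧ G.edgeSet.ncard = m ∧ numCliques s G = c} := by
  refine ⟨⌈C * (m : ℝ) ^ E⌉₊, ?_⟩
  rintro c ⟨V, hV, G, hG, hGm, rfl⟩
  have := hup V G hG hGm
  have h2 := Nat.le_ceil (C * (m : ℝ) ^ E)
  exact_mod_cast this.trans h2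

theorem isBigO_of_upper {s : ℕ} {E C : ℝ} (hC : 0 < C) {W : Type} {F : SimpleGraph W}
    (hup : ∀ (V : Type) [Finite V] (G : SimpleGraph V) (m : ℕ), 1 ≤ m → F.Free G →
      G.edgeSet.ncard = m → (numCliques s G : ℝ) ≤ C * (m : ℝ) ^ E) :
    (fun m : ℕ => (mex s m F : ℝ)) =O[atTop] (fun m : ℕ => (m : ℝ) ^ E) := by
  refine IsBigO.of_bound C (eventually_atTop.2 ⟨1, fun m hm => ?_⟩)
  rw [Real.norm_of_nonneg (by positivity), Real.norm_of_nonneg (by positivity)]
  have hle : mex s m F ≤ ⌊C * (m : ℝ) ^ E⌋₊ := by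
    apply csSup_le'
    rintro c ⟨V, hV, G, hG, hGm, rfl⟩
    exact Nat.le_floor (hup V G m hm hG hGm)
  exact (Nat.cast_le.2 hle).trans (Nat.floor_le (by positivity))

/-- the order of magnitude for stacked graphs containing `K_{a,b'}` -/
theorem theta_of {a b b' s : ℕ} (ha : 1 ≤ a) (hs : 2 ≤ s) {E C : ℝ} (hE : 1 ≤ E) (hC : 0 < C)
    (hup : ∀ (V : Type) [Finite V] (G : SimpleGraph V) (m : ℕ), 1 ≤ m →
      (completeBipartiteGraph (Fin a) (Fin b)).Free G → G.edgeSet.ncard = m →
      (numCliques s G : ℝ) ≤ C * (m : ℝ) ^ E)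
    (hlow : (fun m : ℕ => (m : ℝ) ^ E) =O[atTop]
      (fun m : ℕ => (mex s m (completeBipartiteGraph (Fin a) (Fin b')) : ℝ)))
    {W : Type} [Finite W] {F : SimpleGraph W} (hF : IsStacked a b F)
    (hKF : (completeBipartiteGraph (Fin a) (Fin b')).IsContained F) :
    (fun m : ℕ => (mex s m F : ℝ)) =Θ[atTop] (fun m : ℕ => (m : ℝ) ^ E) := by
  have hup' : ∀ (V : Type) [Finite V] (G : SimpleGraph V) (m : ℕ), 1 ≤ m → F.Free G →
      G.edgeSet.ncard = m → (numCliques s G : ℝ) ≤ (C + 2 ^ Nat.card W) * (m : ℝ) ^ E :=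
    fun V _ G m hm hG hGm => upper_stacked ha hs hE hC hup hF V G m hm hG hGm
  refine ⟨isBigO_of_upper (by positivity) hup', hlow.trans ?_⟩
  refine IsBigO.of_bound 1 (eventually_atTop.2 ⟨1, fun m hm => ?_⟩)
  rw [one_mul, Real.norm_natCast, Real.norm_natCast]
  have hle : mex s m (completeBipartiteGraph (Fin a) (Fin b')) ≤ mex s m F := by
    apply csSup_le'
    rintro c ⟨V, hV, G, hG, hGm, rfl⟩
    apply le_csSup (bdd_of_upper (fun V _ G hG hGm => hup' V G m hm hG hGm))
    refine ⟨V, hV, G, ?_, hGm, rfl⟩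
    intro hcon
    exact hG (hKF.trans hcon)
  exact_mod_cast hle

end Pool.Agent.TH998.Mex
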