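import Pool.Agent.TH998.Mex.Up
import Pool.Agent.H63R3.PTT

/-!
# Cliques in graphs with `m` edges and no complete bipartite subgraph: upper bounds
-/

set_option autoImplicit false

namespace Pool.Agent.TH998.Mex

open Finset Pool.Agent.H63R3.PTT

/-- the exponent for graphs with a given number of edges -/
noncomputable def em (s a : ℕ) : ℝ := (s : ℝ) * (2 * a + 1 - s) / (2 * (2 * a - 1))

theorem em_ev {s a : ℕ} (ha : 1 ≤ a) : (a : ℝ) / (2 * a - 1) * ev s a = em s a := by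
  unfold ev em
  have h1 : (1 : ℝ) ≤ a := by exact_mod_cast ha
  have h2 : (a : ℝ) ≠ 0 := by linarith
  have h3 : 2 * (a : ℝ) - 1 ≠ 0 := by linarith
  field_simp
  ring

theorem em_ev' {t a : ℕ} (ha : 1 ≤ a) :
    1 + ((a + 1 : ℕ) - 1 : ℝ) / (2 * (a + 1 : ℕ) - 1) * (ev (t + 1) a - 1) =
      em (t + 2) (a + 1) := by
  unfold ev em
  have h1 : (1 : ℝ) ≤ a := by exact_mod_cast ha
  have h2 : (a : ℝ) ≠ 0 := by linarith
  have h3 : 2 * (a : ℝ) + 1 ≠ 0 := by linarith
  have h4 : 2 * ((a : ℝ) + 1) - 1 = 2 * a + 1 := by ring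
  push_cast
  rw [h4]
  field_simp
  ring

theorem one_le_ev {t a : ℕ} (ha : 1 ≤ a) (ht : t ≤ a) : 1 ≤ ev (t + 1) a := by
  unfold ev
  have h1 : (1 : ℝ) ≤ a := by exact_mod_cast ha
  have h2 : (t : ℝ) ≤ a := by exact_mod_cast ht
  have h3 : (0 : ℝ) ≤ t := Nat.cast_nonneg _
  rw [le_div_iff₀ (by linarith)]
  push_cast
  have h4 : (0 : ℤ) ≤ (t : ℤ) * (2 * a - t - 1) := by
    rcases Nat.eq_zero_or_pos t with rfl | h
    · simp
    · apply mul_nonneg <;> omega
  have h5 : (0 : ℝ) ≤ (t : ℝ) * (2 * a - t - 1) := by exact_mod_cast h4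
  nlinarith

theorem U2 (t a b : ℕ) (ha : 1 ≤ a) (ht : t ≤ a) : ∃ C : ℝ, 0 < C ∧
    ∀ (V : Type) [Fintype V] [DecidableEq V] (G : SimpleGraph V) (m : ℕ), 1 ≤ m →
      Loc G (a + 1) b univ → ∑ v, (nb G univ v).card = 2 * m →
      (cl G (t + 2) univ : ℝ) ≤ C * (m : ℝ) ^ em (t + 2) (a + 1) := by
  classical
  obtain ⟨C1, hC1, h1⟩ := U1 (t + 1) (a + 1) (by omega) (by omega) b
  obtain ⟨C2, hC2, h2⟩ := U1 t a ha ht b
  set e : ℝ := ev (t + 2) (a + 1) with he
  refine ⟨C1 * 2 ^ e + 2 * C2, by positivity, ?_⟩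
  intro V _ _ G m hm hL hsum
  have ha1 : (1 : ℝ) ≤ a := by exact_mod_cast ha
  have hm1 : (1 : ℝ) ≤ m := by exact_mod_cast hm
  have hm0 : (0 : ℝ) < m := by linarith
  have hq : (0 : ℝ) < 2 * (a + 1 : ℕ) - 1 := by push_cast; linarith
  set θ : ℝ := ((a + 1 : ℕ) - 1 : ℝ) / (2 * (a + 1 : ℕ) - 1) with hθ
  set D : ℝ := (m : ℝ) ^ θ with hD
  have hD0 : 0 < D := Real.rpow_pos_of_pos hm0 _
  have hsumR : ∑ v, ((nb G univ v).card : ℝ) = 2 * m := by exact_mod_cast hsum
  have he0 : 0 ≤ e := ev_nonneg (by omega)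
  set p : V → Prop := fun v => D ≤ ((nb G univ v).card : ℝ) with hp
  set H : Finset V := univ.filter p with hH
  have hHcard : (H.card : ℝ) ≤ 2 * (m : ℝ) ^ (((a + 1 : ℕ) : ℝ) / (2 * (a + 1 : ℕ) - 1)) := by
    have h3 : (H.card : ℝ) * D ≤ 2 * m := by
      rw [← hsumR]
      calc (H.card : ℝ) * D = ∑ v ∈ H, D := by rw [Finset.sum_const, nsmul_eq_mul]
        _ ≤ ∑ v ∈ H, ((nb G univ v).card : ℝ) :=
            Finset.sum_le_sum fun v hv => (Finset.mem_filter.1 hv).2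
        _ ≤ ∑ v, ((nb G univ v).card : ℝ) :=
            Finset.sum_le_sum_of_subset_of_nonneg (Finset.subset_univ _)
              fun _ _ _ => Nat.cast_nonneg _
    have h4 : (m : ℝ) ^ (((a + 1 : ℕ) : ℝ) / (2 * (a + 1 : ℕ) - 1)) * D = m := by
      rw [hD, ← Real.rpow_add hm0]
      have : ((a + 1 : ℕ) : ℝ) / (2 * (a + 1 : ℕ) - 1) + θ = 1 := by
        rw [hθ, ← add_div]
        rw [div_eq_one_iff_eq hq.ne']
        ring
      rw [this, Real.rpow_one]
    by_contra hcon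
    push Not at hcon
    have h5 := mul_lt_mul_of_pos_right hcon hD0
    rw [mul_assoc, h4] at h5
    linarith
  have hpart1 : (cl G (t + 2) H : ℝ) ≤ C1 * 2 ^ e * (m : ℝ) ^ em (t + 2) (a + 1) := by
    have h3 : (cl G (t + 2) H : ℝ) ≤ C1 * (H.card : ℝ) ^ e :=
      h1 V G H (hL.mono (Finset.subset_univ _))
    have h4 : (H.card : ℝ) ^ e ≤
        (2 * (m : ℝ) ^ (((a + 1 : ℕ) : ℝ) / (2 * (a + 1 : ℕ) - 1))) ^ e :=
      Real.rpow_le_rpow (Nat.cast_nonneg _) hHcard he0
    rw [Real.mul_rpow (by norm_num) (by positivity), ← Real.rpow_mul hm0.le,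
      em_ev (by omega)] at h4
    calc (cl G (t + 2) H : ℝ) ≤ C1 * (H.card : ℝ) ^ e := h3
      _ ≤ C1 * (2 ^ e * (m : ℝ) ^ em (t + 2) (a + 1)) := mul_le_mul_of_nonneg_left h4 hC1.le
      _ = _ := by ring
  have hpart2 : (∑ v ∈ univ.filter (fun v => ¬ p v), (cl G (t + 1) (nb G univ v) : ℝ)) ≤
      2 * C2 * (m : ℝ) ^ em (t + 2) (a + 1) := by
    have hf1 : 1 ≤ ev (t + 1) a := one_le_ev ha ht
    set f : ℝ := ev (t + 1) a with hf
    have h3 : ∀ v ∈ univ.filter (fun v => ¬ p v), (cl G (t + 1) (nb G univ v) : ℝ) ≤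
        C2 * (((nb G univ v).card : ℝ) * D ^ (f - 1)) := by
      intro v hv
      have h4 : ((nb G univ v).card : ℝ) < D := by
        have := (Finset.mem_filter.1 hv).2
        simpa [hp] using this
      refine (h2 V G _ (hL.nb (Finset.mem_univ v))).trans ?_
      apply mul_le_mul_of_nonneg_left _ hC2.le
      set d : ℝ := ((nb G univ v).card : ℝ) with hd
      have hd0 : 0 ≤ d := Nat.cast_nonneg _
      rcases hd0.eq_or_lt with h5 | h5
      · rw [← h5, Real.zero_rpow (by linarith)]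
        simp
      · have h6 : d ^ f = d * d ^ (f - 1) := by
          rw [Real.rpow_sub_one h5.ne']
          field_simp
        rw [h6]
        apply mul_le_mul_of_nonneg_left _ hd0
        exact Real.rpow_le_rpow hd0 h4.le (by linarith)
    calc (∑ v ∈ univ.filter (fun v => ¬ p v), (cl G (t + 1) (nb G univ v) : ℝ))
        ≤ ∑ v ∈ univ.filter (fun v => ¬ p v), C2 * (((nb G univ v).card : ℝ) * D ^ (f - 1)) :=
          Finset.sum_le_sum h3
      _ ≤ ∑ v, C2 * (((nb G univ v).card : ℝ) * D ^ (f - 1)) :=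
          Finset.sum_le_sum_of_subset_of_nonneg (Finset.subset_univ _)
            fun _ _ _ => by positivity
      _ = C2 * ((2 * m) * D ^ (f - 1)) := by
          rw [← Finset.mul_sum, ← Finset.sum_mul, hsumR]
      _ = 2 * C2 * ((m : ℝ) * D ^ (f - 1)) := by ring
      _ = 2 * C2 * (m : ℝ) ^ em (t + 2) (a + 1) := by
          rw [hD, ← Real.rpow_mul hm0.le, ← em_ev' ha, Real.rpow_add hm0, Real.rpow_one]
  have hsplit := cl_split G (t + 1) univ p
  have hsplitR : (cl G (t + 2) univ : ℝ) ≤ (cl G (t + 2) H : ℝ) +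
      ∑ v ∈ univ.filter (fun v => ¬ p v), (cl G (t + 1) (nb G univ v) : ℝ) := by
    have : cl G (t + 2) univ ≤ cl G (t + 2) H +
      ∑ v ∈ univ.filter (fun v => ¬ p v), cl G (t + 1) (nb G univ v) := by
      convert hsplit using 3
    exact_mod_cast this
  calc (cl G (t + 2) univ : ℝ) ≤ _ := hsplitR
    _ ≤ C1 * 2 ^ e * (m : ℝ) ^ em (t + 2) (a + 1) + 2 * C2 * (m : ℝ) ^ em (t + 2) (a + 1) :=
        add_le_add hpart1 hpart2
    _ = _ := by ring

/-- large cliques are determined up to a bounded number of choices by `a` of their vertices -/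
theorem U3 {V : Type} [DecidableEq V] {G : SimpleGraph V} {a b s : ℕ} {A : Finset V}
    (h : Loc G a b A) (hs : a ≤ s) : cl G s A ≤ cl G a A * 2 ^ b := by
  classical
  have h1 : cls G s A ⊆ (cls G a A).biUnion (fun T =>
      (A.filter fun v => ∀ t ∈ T, G.Adj v t).powerset.image (fun R => T ∪ R)) := by
    intro S hS
    rw [mem_cls] at hS
    obtain ⟨hSA, hSs, hSc⟩ := hS
    obtain ⟨T, hTS, hTa⟩ := Finset.exists_subset_card_eq (s := S) (n := a) (by omega)
    rw [Finset.mem_biUnion]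
    refine ⟨T, ?_, ?_⟩
    · rw [mem_cls]
      exact ⟨hTS.trans hSA, hTa, hSc.subset (by exact_mod_cast hTS)⟩
    · rw [Finset.mem_image]
      refine ⟨S \ T, ?_, Finset.union_sdiff_of_subset hTS⟩
      rw [Finset.mem_powerset]
      intro v hv
      rw [Finset.mem_sdiff] at hv
      rw [Finset.mem_filter]
      refine ⟨hSA hv.1, fun t ht => ?_⟩
      exact hSc hv.1 (hTS ht) (fun h => hv.2 (h ▸ ht))
  unfold cl
  refine (Finset.card_le_card h1).trans (Finset.card_biUnion_le.trans ?_)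
  rw [← smul_eq_mul, ← Finset.sum_const]
  refine Finset.sum_le_sum fun T hT => ?_
  rw [mem_cls] at hT
  refine Finset.card_image_le.trans ?_
  rw [Finset.card_powerset]
  exact Nat.pow_le_pow_right (by norm_num) (h T hT.1 hT.2.1).le

theorem not_loc {V : Type} [DecidableEq V] {G : SimpleGraph V} {a b : ℕ} {A : Finset V}
    (h : ¬ Loc G a b A) : ∃ T S : Finset V, T.card = a ∧ S.card = b ∧
      ∀ v ∈ S, ∀ t ∈ T, G.Adj v t := by
  classical
  unfold Loc at h
  push Not at h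
  obtain ⟨T, _, hT, hcon⟩ := h
  obtain ⟨S, hS, hSb⟩ := Finset.exists_subset_card_eq hcon
  refine ⟨T, S, hT, hSb, ?_⟩
  intro v hv
  exact (Finset.mem_filter.1 (hS hv)).2

theorem loc_of_free {V : Type} [DecidableEq V] {G : SimpleGraph V} {a b : ℕ} {A : Finset V}
    (h : (completeBipartiteGraph (Fin a) (Fin b)).Free G) : Loc G a b A := by
  classical
  by_contra hcon
  obtain ⟨T, S, hT, hSb, hS⟩ := not_loc hcon
  apply h
  let e1 : Fin a ≃ T := (T.equivFinOfCardEq hT).symm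
  let e2 : Fin b ≃ S := (S.equivFinOfCardEq hSb).symm
  have hadj : ∀ i j, G.Adj (e1 i : V) (e2 j : V) := by
    intro i j
    exact (hS _ (e2 j).2 (e1 i) (e1 i).2).symm
  refine ⟨⟨⟨Sum.elim (fun i => (e1 i : V)) (fun j => (e2 j : V)), ?_⟩, ?_⟩⟩
  · rintro (i | i) (j | j) hij
    · simp at hij
    · exact hadj i j
    · exact (hadj j i).symm
    · simp at hij
  · rintro (i | i) (j | j) hij
    · simp only [RelHom.coeFn_mk, Sum.elim_inl] at hij
      rw [e1.injective (Subtype.ext hij)]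
    · simp only [RelHom.coeFn_mk, Sum.elim_inl, Sum.elim_inr] at hij
      exact absurd hij (hadj i j).ne
    · simp only [RelHom.coeFn_mk, Sum.elim_inl, Sum.elim_inr] at hij
      exact absurd hij.symm (hadj j i).ne
    · simp only [RelHom.coeFn_mk, Sum.elim_inr] at hij
      rw [e2.injective (Subtype.ext hij)]

theorem numCliques_cl {V : Type} [Fintype V] [DecidableEq V] (s : ℕ) (G : SimpleGraph V) :
    numCliques s G = cl G s univ := by
  rw [numCliques, cl, ← Set.ncard_coe_finset]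
  congr 1
  ext S
  rw [Finset.mem_coe, mem_cls, Set.mem_ofPred_eq, SimpleGraph.isNClique_iff]
  constructor
  · rintro ⟨h1, h2⟩
    exact ⟨Finset.subset_univ _, h2, h1⟩
  · rintro ⟨_, h1, h2⟩
    exact ⟨h2, h1⟩

theorem sum_nb {V : Type} [Fintype V] [DecidableEq V] (G : SimpleGraph V) :
    ∑ v, (nb G univ v).card = 2 * G.edgeSet.ncard := by
  classical
  have h1 := G.sum_degrees_eq_twice_card_edges
  have h2 : G.edgeSet.ncard = G.edgeFinset.card := by
    rw [← SimpleGraph.coe_edgeFinset, Set.ncard_coe_finset]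
  rw [h2, ← h1]
  refine Finset.sum_congr rfl fun v _ => ?_
  rw [← SimpleGraph.card_neighborFinset_eq_degree]
  congr 1
  ext w
  rw [mem_nb, SimpleGraph.mem_neighborFinset]
  simp

/-- the upper bound for small cliques -/
theorem upper_small {a b s : ℕ} (ha : 2 ≤ a) (hs2 : 2 ≤ s) (hsa : s ≤ a + 1) :
    ∃ C : ℝ, 0 < C ∧ ∀ (V : Type) [Finite V] (G : SimpleGraph V) (m : ℕ), 1 ≤ m →
      (completeBipartiteGraph (Fin a) (Fin b)).Free G → G.edgeSet.ncard = m →
      (numCliques s G : ℝ) ≤ C * (m : ℝ) ^ em s a := by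
  classical
  obtain ⟨a', rfl⟩ : ∃ a', a = a' + 1 := ⟨a - 1, by omega⟩
  obtain ⟨t, rfl⟩ : ∃ t, s = t + 2 := ⟨s - 2, by omega⟩
  obtain ⟨C, hC, h⟩ := U2 t a' b (by omega) (by omega)
  refine ⟨C, hC, ?_⟩
  intro V _ G m hm hG hGm
  have := Fintype.ofFinite V
  rw [numCliques_cl]
  refine h V G m hm (loc_of_free hG) ?_
  rw [sum_nb, hGm]

/-- the upper bound for large cliques -/
theorem upper_large {a b s : ℕ} (ha : 2 ≤ a) (hsa : a ≤ s) :
    ∃ C : ℝ, 0 < C ∧ ∀ (V : Type) [Finite V] (G : SimpleGraph V) (m : ℕ), 1 ≤ m →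
      (completeBipartiteGraph (Fin a) (Fin b)).Free G → G.edgeSet.ncard = m →
      (numCliques s G : ℝ) ≤ C * (m : ℝ) ^ em a a := by
  classical
  obtain ⟨C, hC, h⟩ := upper_small (a := a) (b := b) (s := a) ha ha (by omega)
  refine ⟨C * 2 ^ b, by positivity, ?_⟩
  intro V _ G m hm hG hGm
  have h1 := h V G m hm hG hGm
  have := Fintype.ofFinite V
  rw [numCliques_cl] at h1 ⊢
  have h2 : (cl G s univ : ℝ) ≤ cl G a univ * 2 ^ b := by
    exact_mod_cast U3 (loc_of_free hG) hsa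
  calc (cl G s univ : ℝ) ≤ cl G a univ * 2 ^ b := h2
    _ ≤ (C * (m : ℝ) ^ em a a) * 2 ^ b := by
        apply mul_le_mul_of_nonneg_right h1 (by positivity)
    _ = _ := by ring

end Pool.Agent.TH998.Mex
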