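import Pool.Agent.W834.NG.Sol
import Pool.Agent.W834.NG.Graph
import Pool.Agent.TH998.Mex.Up2

/-!
# Coloured norm graphs
-/

set_option autoImplicit false

namespace Pool.Agent.TH998.Mex

open Finset Pool.Agent.H63R3.PTT Pool.Agent.W834.NG

/-- `m + 1` norm equations have at most `m !` common solutions (Alon, Kollár, Rónyai, Szabó) -/
theorem norm_sol {K : Type} [Field K] {m : ℕ} (hm : 0 < m) (φ : K →+* K) (c : Fin (m + 1) → K)
    (hc : Function.Injective c) (a : Fin (m + 1) → K) (S : Finset K) (b : K → K)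
    (hS : ∀ s ∈ S, ∀ i, ∏ j : Fin m, φ^[j] (s + c i) = a i * b s) : S.card ≤ m.factorial := by
  classical
  refine (card_le_F hm φ c a Finset.univ S b (fun s hs i _ => hS s hs i)).trans ?_
  obtain ⟨n, rfl⟩ : ∃ n, m = n + 1 := ⟨m - 1, by omega⟩
  refine F_triv _ n Finset.univ ?_ ?_ Finset.univ ∅ ?_ ?_
  · intro k i _ i' _ h
    apply hc
    have hinj : Function.Injective (φ^[(k : ℕ)]) := Function.Injective.iterate φ.injective k
    exact hinj h
  · simp
  · exact Finset.disjoint_empty_right _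
  · simp

section graph

variable {K : Type} [Field K] (φ : K →+* K) (m : ℕ) {ι : Type}

/-- the coloured norm graph -/
def CG (χ : K → ι) (c : Sym2 ι → K) : SimpleGraph (K × AA φ) where
  Adj u v := u.1 ≠ v.1 ∧ c s(χ u.1, χ v.1) ≠ 0 ∧
    Nm φ m (u.1 + v.1) = c s(χ u.1, χ v.1) * ((u.2 : K) * v.2)
  symm := ⟨fun u v h => by
    refine ⟨h.1.symm, ?_, ?_⟩
    · rw [Sym2.eq_swap]
      exact h.2.1
    · rw [add_comm, h.2.2, Sym2.eq_swap, mul_comm (u.2 : K)]⟩
  loopless := ⟨fun u h => h.1 rfl⟩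

variable {φ m}

theorem CG_det {χ : K → ι} {c : Sym2 ι → K} {u v w : K × AA φ} (h1 : (CG φ m χ c).Adj u v)
    (h2 : (CG φ m χ c).Adj u w) (h : v.1 = w.1) : v = w := by
  have e1 := h1.2.2
  have e2 := h2.2.2
  rw [h, e2] at e1
  have e3 := mul_left_cancel₀ h2.2.1 e1
  have e4 := mul_left_cancel₀ u.2.2.1 e3
  exact Prod.ext h (Subtype.ext e4.symm)

/-- the number of common neighbours on which the constants factor -/
theorem CG_common (hm : 0 < m) (χ : K → ι) (c : Sym2 ι → K) {b : ℕ}
    (x : Fin (m + 1) → K × AA φ) (y : Fin b → K × AA φ) (hx : Function.Injective x)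
    (hy : Function.Injective y) (hadj : ∀ i j, (CG φ m χ c).Adj (x i) (y j))
    (J : Finset (Fin b)) (A : Fin (m + 1) → K) (B : Fin b → K)
    (hAB : ∀ j ∈ J, ∀ i, c s(χ (x i).1, χ (y j).1) = A i * B j) : J.card ≤ m.factorial := by
  classical
  rcases J.eq_empty_or_nonempty with rfl | ⟨j0, hj0⟩
  · simp
  have hX : Function.Injective fun i => (x i).1 := fun i k hik =>
    hx (CG_det (hadj i j0).symm (hadj k j0).symm hik)
  have hY : Function.Injective fun j => (y j).1 := fun i k hik =>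
    hy (CG_det (hadj 0 i) (hadj 0 k) hik)
  have hA : ∀ i, A i ≠ 0 := by
    intro i h0
    have h1 := (hadj i j0).2.1
    rw [hAB j0 hj0, h0, zero_mul] at h1
    exact h1 rfl
  have ha : A 0 * (x 0).2 ≠ 0 := mul_ne_zero (hA 0) (x 0).2.2.1
  have hb' : ∀ j ∈ J, Nm φ m ((y j).1 + (x 0).1) / (A 0 * (x 0).2) = B j * (y j).2 := by
    intro j hj
    rw [add_comm, (hadj 0 j).2.2, hAB j hj]
    rw [div_eq_iff ha]
    ring
  have := norm_sol hm φ (fun i => (x i).1) hX (fun i => A i * (x i).2)
    (J.image fun j => (y j).1)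
    (fun s => Nm φ m (s + (x 0).1) / (A 0 * (x 0).2)) (by
      intro s hs i
      obtain ⟨j, hj, rfl⟩ := Finset.mem_image.1 hs
      rw [hb' j hj]
      have h1 := (hadj i j).2.2
      rw [hAB j hj, add_comm] at h1
      refine Eq.trans h1 ?_
      ring)
  rwa [Finset.card_image_of_injective _ hY] at this

theorem CG_noK_plain (hm : 0 < m) (c : Sym2 Unit → K) {b : ℕ} (hb : m.factorial < b) :
    NoK (CG φ m (fun _ : K => ()) c) (m + 1) b := by
  rintro ⟨x, y, hx, hy, hadj⟩
  have := CG_common hm _ c x y hx hy hadj univ (fun _ => 1) (fun _ => c s((), ()))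
    (fun j _ i => by rw [one_mul])
  rw [Finset.card_univ, Fintype.card_fin] at this
  omega

theorem CG_noK [Fintype ι] [DecidableEq ι] (hm : 0 < m) (χ : K → ι) (c : Sym2 ι → K)
    (hdiag : ∀ i, c s(i, i) = 0) {b : ℕ} (hb1 : m.factorial < b)
    (hb : (Fintype.card ι - 2) * m.factorial < b) : NoK (CG φ m χ c) (m + 1) b := by
  classical
  rintro ⟨x, y, hx, hy, hadj⟩
  by_cases hcol : ∃ i k, χ (x i).1 ≠ χ (x k).1
  · obtain ⟨i, k, hik⟩ := hcol
    have hne : ∀ i j, χ (x i).1 ≠ χ (y j).1 := by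
      intro i j h
      apply (hadj i j).2.1
      rw [h]
      exact hdiag _
    obtain ⟨σ, _, hσ⟩ := Finset.exists_lt_card_fiber_of_mul_lt_card_of_maps_to
      (s := (univ : Finset (Fin b)))
      (t := (univ : Finset ι) \ {χ (x i).1, χ (x k).1}) (f := fun j => χ (y j).1)
      (n := m.factorial) (fun j _ => by
        rw [Finset.mem_sdiff, Finset.mem_insert, Finset.mem_singleton, not_or]
        exact ⟨Finset.mem_univ _, (hne i j).symm, (hne k j).symm⟩)
      (by
        rw [Finset.card_univ, Fintype.card_fin, Finset.card_sdiff_of_subset (Finset.subset_univ _),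
          Finset.card_pair hik, Finset.card_univ]
        exact hb)
    have := CG_common hm χ c x y hx hy hadj (univ.filter fun j => χ (y j).1 = σ)
      (fun i => c s(χ (x i).1, σ)) (fun _ => 1) (by
        intro j hj i
        rw [(Finset.mem_filter.1 hj).2, mul_one])
    omega
  · push Not at hcol
    have := CG_common hm χ c x y hx hy hadj univ (fun _ => 1)
      (fun j => c s(χ (x 0).1, χ (y j).1)) (by
        intro j _ i
        rw [one_mul, hcol i 0])
    rw [Finset.card_univ, Fintype.card_fin] at this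
    omega

theorem CG_edges [Fintype K] [Fintype (AA φ)] (χ : K → ι) (c : Sym2 ι → K) :
    2 * (CG φ m χ c).edgeSet.ncard ≤ Fintype.card K * Fintype.card (AA φ) * Fintype.card K := by
  classical
  rw [← sum_nb]
  calc ∑ v, (nb (CG φ m χ c) univ v).card ≤ ∑ _v : K × AA φ, Fintype.card K := by
        refine Finset.sum_le_sum fun v _ => ?_
        rw [← Finset.card_univ (α := K)]
        refine Finset.card_le_card_of_injOn (fun w => w.1)
          (fun _ _ => Finset.mem_coe.2 (Finset.mem_univ _)) ?_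
        intro w hw w' hw' h
        rw [Finset.mem_coe, mem_nb] at hw hw'
        exact CG_det hw.2 hw'.2 h
    _ = _ := by rw [Finset.sum_const, Finset.card_univ, Fintype.card_prod, smul_eq_mul]

variable (φ) in
/-- the constants off the diagonal, extended by zero -/
noncomputable def ext {s : ℕ} (c : {z : Sym2 (Fin s) // ¬ z.IsDiag} → AA φ) :
    Sym2 (Fin s) → K := by
  classical
  exact fun z => if h : z.IsDiag then 0 else c ⟨z, h⟩

theorem ext_eq {s : ℕ} (c : {z : Sym2 (Fin s) // ¬ z.IsDiag} → AA φ) (z : Sym2 (Fin s))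
    (h : ¬ z.IsDiag) : ext φ c z = c ⟨z, h⟩ := by
  unfold ext
  rw [dif_neg h]

theorem ext_diag {s : ℕ} (c : {z : Sym2 (Fin s) // ¬ z.IsDiag} → AA φ) (i : Fin s) :
    ext φ c s(i, i) = 0 := by
  unfold ext
  rw [dif_pos (by rw [Sym2.mk_isDiag_iff])]

theorem CG_cliques [CharP K 2] [Fintype K] [Fintype (AA φ)] (hm : 0 < m)
    (hφ : ∀ x, φ^[m] x = x) {s : ℕ} (χ : K → Fin s) [DecidableEq K] [DecidableEq (AA φ)] :
    ∃ c : Sym2 (Fin s) → K, (∀ i, c s(i, i) = 0) ∧
      (∏ i : Fin s, Fintype.card {k : K // χ k = i}) * Fintype.card (AA φ) ^ s ≤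
        cl (CG φ m χ c) s univ * Fintype.card (AA φ) ^ s.choose 2 := by
  classical
  let T := (∀ i : Fin s, {k : K // χ k = i}) × (Fin s → AA φ)
  have hne : ∀ (x : ∀ i : Fin s, {k : K // χ k = i}) (i j : Fin s), i ≠ j →
      (x i : K) ≠ x j := by
    intro x i j hij h
    apply hij
    rw [← (x i).2, ← (x j).2, h]
  let g : T → Sym2 (Fin s) → K := fun t => Sym2.lift
    ⟨fun i j => Nm φ m ((t.1 i : K) + t.1 j) / ((t.2 i : K) * t.2 j), fun i j => by
      show Nm φ m ((t.1 i : K) + t.1 j) / ((t.2 i : K) * t.2 j) =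
        Nm φ m ((t.1 j : K) + t.1 i) / ((t.2 j : K) * t.2 i)
      rw [add_comm (t.1 i : K), mul_comm (t.2 i : K)]⟩
  have hg : ∀ (t : T) (z : Sym2 (Fin s)), ¬ z.IsDiag → g t z ≠ 0 ∧ φ (g t z) = g t z := by
    intro t z
    induction z using Sym2.ind with
    | _ i j =>
      intro hz
      rw [Sym2.mk_isDiag_iff] at hz
      have h1 : (t.1 i : K) + t.1 j ≠ 0 := by
        intro h0
        exact hne t.1 i j hz (CharTwo.add_eq_zero.1 h0)
      refine ⟨div_ne_zero (Nm_ne φ m h1) (mul_ne_zero (t.2 i).2.1 (t.2 j).2.1), ?_⟩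
      show φ (Nm φ m ((t.1 i : K) + t.1 j) / ((t.2 i : K) * t.2 j)) = _
      rw [map_div₀, map_mul, Nm_fix φ m hm hφ, (t.2 i).2.2, (t.2 j).2.2]
      rfl
  let cc : T → ({z : Sym2 (Fin s) // ¬ z.IsDiag} → AA φ) := fun t z => ⟨g t z, hg t z z.2⟩
  let SS : T → Finset (K × AA φ) := fun t => univ.image fun i => ((t.1 i : K), t.2 i)
  have hSS : ∀ t, SS t ∈ cls (CG φ m χ (ext φ (cc t))) s univ := by
    intro t
    rw [mem_cls]
    refine ⟨Finset.subset_univ _, ?_, ?_⟩
    · rw [Finset.card_image_of_injective, Finset.card_univ, Fintype.card_fin]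
      intro i j hij
      by_contra h
      exact hne t.1 i j h (congrArg Prod.fst hij)
    · intro u hu v hv huv
      rw [Finset.mem_coe, Finset.mem_image] at hu hv
      obtain ⟨i, _, rfl⟩ := hu
      obtain ⟨j, _, rfl⟩ := hv
      have hij : i ≠ j := fun h => huv (by rw [h])
      have hnd : ¬ (s(i, j) : Sym2 (Fin s)).IsDiag := by
        rw [Sym2.mk_isDiag_iff]
        exact hij
      refine ⟨hne t.1 i j hij, ?_, ?_⟩
      · simp only [(t.1 i).2, (t.1 j).2]
        rw [ext_eq _ _ hnd]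
        exact (cc t ⟨s(i, j), hnd⟩).2.1
      simp only [(t.1 i).2, (t.1 j).2]
      rw [ext_eq _ _ hnd]
      show Nm φ m ((t.1 i : K) + t.1 j) =
        Nm φ m ((t.1 i : K) + t.1 j) / ((t.2 i : K) * t.2 j) * ((t.2 i : K) * t.2 j)
      rw [div_mul_cancel₀ _ (mul_ne_zero (t.2 i).2.1 (t.2 j).2.1)]
  have hSinj : Function.Injective SS := by
    intro t t' h
    have key : ∀ i, (t.1 i : K) = t'.1 i ∧ t.2 i = t'.2 i := by
      intro i
      have h1 : ((t.1 i : K), t.2 i) ∈ SS t' := by
        rw [← h]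
        exact Finset.mem_image_of_mem _ (Finset.mem_univ i)
      obtain ⟨j, _, hj⟩ := Finset.mem_image.1 h1
      have h2 : (t'.1 j : K) = t.1 i := congrArg Prod.fst hj
      have h3 : t'.2 j = t.2 i := congrArg Prod.snd hj
      have h4 : j = i := by
        rw [← (t'.1 j).2, h2, (t.1 i).2]
      subst h4
      exact ⟨h2.symm, h3.symm⟩
    refine Prod.ext ?_ ?_
    · funext i
      exact Subtype.ext (key i).1
    · funext i
      exact (key i).2
  have hJc : Fintype.card {z : Sym2 (Fin s) // ¬ z.IsDiag} = s.choose 2 := by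
    rw [Sym2.card_subtype_not_diag, Fintype.card_fin]
  have hTc : Fintype.card T =
      (∏ i : Fin s, Fintype.card {k : K // χ k = i}) * Fintype.card (AA φ) ^ s :=
    (Fintype.card_prod _ _).trans
      (by rw [Fintype.card_pi, Fintype.card_fun, Fintype.card_fin])
  have hcount : Fintype.card T ≤
      ∑ c : {z : Sym2 (Fin s) // ¬ z.IsDiag} → AA φ, cl (CG φ m χ (ext φ c)) s univ := by
    unfold cl
    rw [← Finset.card_sigma, ← Finset.card_univ]
    refine Finset.card_le_card_of_injOn (fun t => ⟨cc t, SS t⟩) ?_ ?_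
    · intro t _
      rw [Finset.mem_coe, Finset.mem_sigma]
      exact ⟨Finset.mem_univ _, hSS t⟩
    · intro t _ t' _ h
      apply hSinj
      have := congrArg (fun z : (_ : {z : Sym2 (Fin s) // ¬ z.IsDiag} → AA φ) ×
        Finset (K × AA φ) => z.2) h
      exact this
  have hex : ∃ c ∈ (univ : Finset ({z : Sym2 (Fin s) // ¬ z.IsDiag} → AA φ)),
      Fintype.card T ≤ cl (CG φ m χ (ext φ c)) s univ *
        Fintype.card ({z : Sym2 (Fin s) // ¬ z.IsDiag} → AA φ) := by
    apply Finset.exists_le_of_sum_le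
    · exact ⟨fun _ => ⟨1, one_ne_zero, map_one φ⟩, Finset.mem_univ _⟩
    · rw [Finset.sum_const, ← Finset.sum_mul, Finset.card_univ, smul_eq_mul, mul_comm]
      exact Nat.mul_le_mul_right _ hcount
  obtain ⟨c, _, hc⟩ := hex
  refine ⟨ext φ c, ext_diag c, ?_⟩
  rw [hTc, Fintype.card_fun, hJc] at hc
  exact hc

end graph

/-- a balanced colouring -/
theorem exists_col (K : Type) [Fintype K] (s : ℕ) (hs : 0 < s) [DecidableEq K] :
    ∃ χ : K → Fin s, ∀ i, Fintype.card K / s ≤ Fintype.card {k : K // χ k = i} := by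
  classical
  set n := Fintype.card K with hn
  let e : K ≃ Fin n := Fintype.equivFin K
  refine ⟨fun k => ⟨(e k : ℕ) % s, Nat.mod_lt _ hs⟩, ?_⟩
  intro i
  have hlt : ∀ u : Fin (n / s), (i : ℕ) + s * u < n := by
    intro u
    have h1 := i.2
    have h2 := u.2
    have h3 : s * (n / s) ≤ n := Nat.mul_div_le n s
    have h4 : s * ((u : ℕ) + 1) ≤ s * (n / s) := Nat.mul_le_mul_left _ h2
    have h5 : s * ((u : ℕ) + 1) = s * u + s := by ring
    omega
  let f : Fin (n / s) → {k : K // (⟨(e k : ℕ) % s, Nat.mod_lt _ hs⟩ : Fin s) = i} := fun u =>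
    ⟨e.symm ⟨i + s * u, hlt u⟩, by
      apply Fin.ext
      simp only [Equiv.apply_symm_apply]
      rw [Nat.add_mul_mod_self_left]
      exact Nat.mod_eq_of_lt i.2⟩
  have hf : Function.Injective f := by
    intro u v h
    have h1 := congrArg Subtype.val h
    have h2 := e.symm.injective h1
    have h3 : (i : ℕ) + s * u = i + s * v := congrArg Fin.val h2
    apply Fin.ext
    exact Nat.eq_of_mul_eq_mul_left hs (by omega)
  have := Fintype.card_le_of_injective f hf
  rwa [Fintype.card_fin] at this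

/-- the fixed elements of the Frobenius -/
theorem AA_le (l : ℕ) (K : Type) [Field K] [CharP K 2] [Fintype K]
    [Fintype (AA (iterateFrobenius K 2 l))] (hl : 1 ≤ l) :
    Fintype.card (AA (iterateFrobenius K 2 l)) ≤ 2 ^ l - 1 := by
  classical
  have hl2 : 2 ≤ 2 ^ l := by
    calc 2 = 2 ^ 1 := by norm_num
      _ ≤ 2 ^ l := Nat.pow_le_pow_right (by norm_num) hl
  have h1 : Fintype.card (AA (iterateFrobenius K 2 l)) ≤
      (Polynomial.nthRoots (2 ^ l - 1) (1 : K)).card := by
    have h2 : Fintype.card (AA (iterateFrobenius K 2 l)) =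
        (Finset.univ.image (Subtype.val : AA (iterateFrobenius K 2 l) → K)).card := by
      rw [Finset.card_image_of_injective _ Subtype.val_injective, Finset.card_univ]
    rw [h2]
    refine le_trans (Finset.card_le_card
      (t := (Polynomial.nthRoots (2 ^ l - 1) (1 : K)).toFinset) ?_)
      (Multiset.toFinset_card_le _)
    intro a ha
    obtain ⟨a, _, rfl⟩ := Finset.mem_image.1 ha
    have h3 := a.2.2
    rw [iterateFrobenius_def] at h3
    rw [Multiset.mem_toFinset, Polynomial.mem_nthRoots (by omega)]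
    have h4 : (a : K) ^ (2 ^ l - 1) * a = 1 * a := by
      rw [← pow_succ, Nat.sub_add_cancel (by omega), h3, one_mul]
    exact mul_right_cancel₀ a.2.1 h4
  exact h1.trans (Polynomial.card_nthRoots _ _)

end Pool.Agent.TH998.Mex
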