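import Pool.Agent.TH998.Mex.Fam

/-!
# Cliques from Möbius transformations
-/

set_option autoImplicit false

namespace Pool.Agent.TH998.Mex

open Finset Pool.Agent.H63R3.PTT Pool.Agent.W834.NG Filter Asymptotics

section mobius

variable {K : Type} [Field K] {φ : K →+* K} {m : ℕ} {ι : Type}

/-- the points of a Möbius configuration -/
noncomputable def mp {s : ℕ} (P : Fin s → K) (t : K × K × K) (i : Fin s) : K :=
  t.1 + t.2.1 ^ 2 / (P i + t.2.2)

theorem mp_add [CharP K 2] {s : ℕ} (P : Fin s → K) (t : K × K × K)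
    (hP : ∀ i, P i + t.2.2 ≠ 0) (i j : Fin s) :
    (mp P t i + mp P t j) * ((P i + t.2.2) * (P j + t.2.2)) = t.2.1 ^ 2 * (P i + P j) := by
  have h2 : (2 : K) = 0 := CharTwo.two_eq_zero
  unfold mp
  have h3 := hP i
  have h4 := hP j
  field_simp
  linear_combination (t.1 * (P i + t.2.2) * (P j + t.2.2) + t.2.1 ^ 2 * t.2.2) * h2

theorem mp_inj [CharP K 2] {s : ℕ} {P : Fin s → K} (hPi : Function.Injective P) {t : K × K × K}
    (hr : t.2.1 ≠ 0) (hP : ∀ i, P i + t.2.2 ≠ 0) : Function.Injective (mp P t) := by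
  intro i j hij
  have h1 := mp_add P t hP i j
  rw [hij, CharTwo.add_self_eq_zero, zero_mul] at h1
  have h2 : P i + P j = 0 := by
    rcases mul_eq_zero.1 h1.symm with h | h
    · exact absurd h (pow_ne_zero _ hr)
    · exact h
  exact hPi (CharTwo.add_eq_zero.1 h2)

theorem sq_inj' [CharP K 2] {u v : K} (h : u ^ 2 = v ^ 2) : u = v := by
  have h1 : (u + v) ^ 2 = 0 := by
    rw [CharTwo.add_sq, h]
    exact CharTwo.add_self_eq_zero _
  have h2 := pow_eq_zero_iff (two_ne_zero) |>.1 h1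
  exact CharTwo.add_eq_zero.1 h2

theorem mp_det [CharP K 2] {s : ℕ} {P : Fin s → K} (hPi : Function.Injective P)
    {t t' : K × K × K} (hr : t.2.1 ≠ 0) (hP : ∀ i, P i + t.2.2 ≠ 0)
    (hP' : ∀ i, P i + t'.2.2 ≠ 0) {i j k : Fin s} (hij : i ≠ j) (hik : i ≠ k)
    (hjk : j ≠ k) (h : ∀ z, z = i ∨ z = j ∨ z = k → mp P t z = mp P t' z) : t = t' := by
  have key : ∀ z, z = j ∨ z = k → t.2.1 ^ 2 * ((P i + t'.2.2) * (P z + t'.2.2)) =
      t'.2.1 ^ 2 * ((P i + t.2.2) * (P z + t.2.2)) := by
    intro z hz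
    have hiz : P i + P z ≠ 0 := by
      intro h0
      have := hPi (CharTwo.add_eq_zero.1 h0)
      rcases hz with rfl | rfl
      · exact hij this
      · exact hik this
    have e1 := mp_add P t hP i z
    have e2 := mp_add P t' hP' i z
    rw [h i (Or.inl rfl), h z (Or.inr hz)] at e1
    apply mul_right_cancel₀ hiz
    calc t.2.1 ^ 2 * ((P i + t'.2.2) * (P z + t'.2.2)) * (P i + P z)
        = (t.2.1 ^ 2 * (P i + P z)) * ((P i + t'.2.2) * (P z + t'.2.2)) := by ring
      _ = ((mp P t' i + mp P t' z) * ((P i + t'.2.2) * (P z + t'.2.2))) *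
            ((P i + t.2.2) * (P z + t.2.2)) := by rw [← e1]; ring
      _ = t'.2.1 ^ 2 * ((P i + t.2.2) * (P z + t.2.2)) * (P i + P z) := by rw [e2]; ring
  have k1 := key j (Or.inl rfl)
  have k2 := key k (Or.inr rfl)
  have hD : t.2.2 = t'.2.2 := by
    have e3 : (t.2.1 ^ 2 * (P i + t'.2.2)) * ((P j + t'.2.2) * (P k + t.2.2)) =
        (t.2.1 ^ 2 * (P i + t'.2.2)) * ((P k + t'.2.2) * (P j + t.2.2)) := by
      linear_combination (P k + t.2.2) * k1 - (P j + t.2.2) * k2
    have e4 := mul_left_cancel₀ (mul_ne_zero (pow_ne_zero 2 hr) (hP' i)) e3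
    have e5 : (P j - P k) * (t.2.2 - t'.2.2) = 0 := by linear_combination e4
    rcases mul_eq_zero.1 e5 with e6 | e6
    · exact absurd (hPi (sub_eq_zero.1 e6)) hjk
    · exact sub_eq_zero.1 e6
  rw [← hD] at k1
  have hr2 := sq_inj' (mul_right_cancel₀ (mul_ne_zero (hP i) (hP j)) k1)
  have hA := h i (Or.inl rfl)
  unfold mp at hA
  rw [← hD, ← hr2] at hA
  have hA' := add_right_cancel hA
  exact Prod.ext hA' (Prod.ext hr2 hD)

open Classical in
/-- the fixed element with a given value -/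
noncomputable def al (φ : K →+* K) (x : K) : AA φ :=
  if h : x ≠ 0 ∧ φ x = x then ⟨x, h⟩ else ⟨1, one_ne_zero, map_one φ⟩

theorem al_val {x : K} (h : x ≠ 0 ∧ φ x = x) : (al φ x : K) = x := by
  unfold al
  rw [dif_pos h]

theorem CG_mobius [CharP K 2] [Fintype K] [Fintype (AA φ)] [DecidableEq K] [DecidableEq (AA φ)]
    (hm : 0 < m) (hφ : ∀ x, φ^[m] x = x) {s : ℕ} (hs : 3 ≤ s) (χ : K → ι) (c : Sym2 ι → K)
    (P : Fin s → K) (hPi : Function.Injective P) (γ : Fin s → AA φ) (Par : Finset (K × K × K))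
    (hPar : ∀ t ∈ Par, t.2.1 ≠ 0 ∧ (∀ i, P i + t.2.2 ≠ 0) ∧ ∀ i j, i ≠ j →
      Nm φ m (P i + P j) = c s(χ (mp P t i), χ (mp P t j)) * ((γ i : K) * γ j)) :
    Par.card ≤ s ^ 3 * cl (CG φ m χ c) s univ := by
  classical
  let av : K × K × K → Fin s → K := fun t i => Nm φ m t.2.1 * γ i / Nm φ m (P i + t.2.2)
  let vt : K × K × K → Fin s → K × AA φ := fun t i => (mp P t i, al φ (av t i))
  have hav : ∀ t ∈ Par, ∀ i, (al φ (av t i) : K) = av t i := by
    intro t ht i
    obtain ⟨h1, h2, _⟩ := hPar t ht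
    apply al_val
    refine ⟨div_ne_zero (mul_ne_zero (Nm_ne φ m h1) (γ i).2.1) (Nm_ne φ m (h2 i)), ?_⟩
    show φ (Nm φ m t.2.1 * γ i / Nm φ m (P i + t.2.2)) = _
    rw [map_div₀, map_mul, Nm_fix φ m hm hφ, Nm_fix φ m hm hφ, (γ i).2.2]
  let SS : K × K × K → Finset (K × AA φ) := fun t => univ.image (vt t)
  have hvinj : ∀ t ∈ Par, Function.Injective (vt t) := by
    intro t ht i j hij
    exact mp_inj hPi (hPar t ht).1 (hPar t ht).2.1 (congrArg Prod.fst hij)
  have hcard : ∀ t ∈ Par, (SS t).card = s := by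
    intro t ht
    rw [Finset.card_image_of_injective _ (hvinj t ht), Finset.card_univ, Fintype.card_fin]
  have hSS : ∀ t ∈ Par, SS t ∈ cls (CG φ m χ c) s univ := by
    intro t ht
    rw [mem_cls]
    refine ⟨Finset.subset_univ _, hcard t ht, ?_⟩
    intro u hu v hv huv
    rw [Finset.mem_coe, Finset.mem_image] at hu hv
    obtain ⟨i, _, rfl⟩ := hu
    obtain ⟨j, _, rfl⟩ := hv
    have hij : i ≠ j := fun h => huv (by rw [h])
    obtain ⟨h1, h2, h3⟩ := hPar t ht
    have h4 := h3 i j hij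
    have h5 : Nm φ m (P i + P j) ≠ 0 := by
      apply Nm_ne
      intro h0
      exact hij (hPi (CharTwo.add_eq_zero.1 h0))
    refine ⟨fun h => hij (mp_inj hPi h1 h2 h), ?_, ?_⟩
    · intro h0
      change c s(χ (mp P t i), χ (mp P t j)) = 0 at h0
      rw [h0, zero_mul] at h4
      exact h5 h4
    · show Nm φ m (mp P t i + mp P t j) = c s(χ (mp P t i), χ (mp P t j)) *
        ((al φ (av t i) : K) * al φ (av t j))
      rw [hav t ht, hav t ht]
      have h6 := congrArg (Nm φ m) (mp_add P t h2 i j)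
      rw [pow_two, Nm_mul, Nm_mul, Nm_mul, Nm_mul, h4] at h6
      have h7 := Nm_ne φ m (h2 i)
      have h8 := Nm_ne φ m (h2 j)
      show Nm φ m (mp P t i + mp P t j) = c s(χ (mp P t i), χ (mp P t j)) *
        ((Nm φ m t.2.1 * γ i / Nm φ m (P i + t.2.2)) *
          (Nm φ m t.2.1 * γ j / Nm φ m (P j + t.2.2)))
      field_simp
      linear_combination h6
  have h01 : (⟨0, by omega⟩ : Fin s) ≠ ⟨1, by omega⟩ := by simp
  have h02 : (⟨0, by omega⟩ : Fin s) ≠ ⟨2, by omega⟩ := by simp
  have h12 : (⟨1, by omega⟩ : Fin s) ≠ ⟨2, by omega⟩ := by simp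
  have hfib : ∀ S ∈ Par.image SS, (Par.filter fun t => SS t = S).card ≤ s ^ 3 := by
    intro S hS
    obtain ⟨t0, ht0, rfl⟩ := Finset.mem_image.1 hS
    have h1 : ((SS t0) ×ˢ ((SS t0) ×ˢ (SS t0))).card = s ^ 3 := by
      rw [Finset.card_product, Finset.card_product, hcard t0 ht0]
      ring
    rw [← h1]
    refine Finset.card_le_card_of_injOn
      (fun t => (vt t ⟨0, by omega⟩, vt t ⟨1, by omega⟩, vt t ⟨2, by omega⟩)) ?_ ?_
    · intro t ht
      rw [Finset.mem_coe, Finset.mem_filter] at ht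
      rw [Finset.mem_coe, Finset.mem_product, Finset.mem_product, ← ht.2]
      exact ⟨Finset.mem_image_of_mem _ (Finset.mem_univ _),
        Finset.mem_image_of_mem _ (Finset.mem_univ _),
        Finset.mem_image_of_mem _ (Finset.mem_univ _)⟩
    · intro t ht t' ht' h
      rw [Finset.mem_coe, Finset.mem_filter] at ht ht'
      have e0 : vt t ⟨0, by omega⟩ = vt t' ⟨0, by omega⟩ := congrArg Prod.fst h
      have e1 : vt t ⟨1, by omega⟩ = vt t' ⟨1, by omega⟩ :=
        congrArg (fun z => Prod.fst (Prod.snd z)) h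
      have e2 : vt t ⟨2, by omega⟩ = vt t' ⟨2, by omega⟩ :=
        congrArg (fun z => Prod.snd (Prod.snd z)) h
      refine mp_det hPi (hPar t ht.1).1 (hPar t ht.1).2.1 (hPar t' ht'.1).2.1 h01 h02 h12 ?_
      intro z hz
      rcases hz with rfl | rfl | rfl
      · exact congrArg Prod.fst e0
      · exact congrArg Prod.fst e1
      · exact congrArg Prod.fst e2
  refine (Finset.card_le_mul_card_image (f := SS) Par (s ^ 3) hfib).trans ?_
  apply Nat.mul_le_mul_left
  unfold cl
  apply Finset.card_le_card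
  intro S hS
  obtain ⟨t, ht, rfl⟩ := Finset.mem_image.1 hS
  exact hSS t ht

end mobius

/-- some colouring is good for many configurations -/
theorem exists_good_col {K T : Type} [Fintype K] [DecidableEq K] (W : Finset T) (s : ℕ)
    (hs : 0 < s) (X : T → Fin s → K) (hX : ∀ t ∈ W, Function.Injective (X t)) :
    ∃ χ : K → Fin s, W.card ≤ (W.filter (fun t => ∀ i, χ (X t i) = i)).card * s ^ s := by
  classical
  have h1 : ∀ t ∈ W, Fintype.card (K → Fin s) ≤
      ((univ : Finset (K → Fin s)).filter (fun χ => ∀ i, χ (X t i) = i)).card * s ^ s := by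
    intro t ht
    have h2 : ((((univ : Finset (K → Fin s)).filter (fun χ => ∀ i, χ (X t i) = i)) ×ˢ
        (univ : Finset (Fin s → Fin s))).card) =
        ((univ : Finset (K → Fin s)).filter (fun χ => ∀ i, χ (X t i) = i)).card * s ^ s := by
      rw [Finset.card_product, Finset.card_univ (α := Fin s → Fin s), Fintype.card_fun,
        Fintype.card_fin]
    rw [← h2, ← Finset.card_univ]
    refine Finset.card_le_card_of_injOn
      (fun χ => (Function.extend (X t) id χ, fun i => χ (X t i))) ?_ ?_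
    · intro χ _
      rw [Finset.mem_coe, Finset.mem_product, Finset.mem_filter]
      refine ⟨⟨Finset.mem_univ _, ?_⟩, Finset.mem_univ _⟩
      intro i
      exact (hX t ht).extend_apply id χ i
    · intro χ _ χ' _ h
      have e1 : Function.extend (X t) id χ = Function.extend (X t) id χ' := congrArg Prod.fst h
      have e2 : (fun i => χ (X t i)) = (fun i => χ' (X t i)) := congrArg Prod.snd h
      funext k
      by_cases hk : ∃ i, X t i = k
      · obtain ⟨i, rfl⟩ := hk
        exact congrFun e2 i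
      · have e3 := congrFun e1 k
        rwa [Function.extend_apply' _ _ _ hk, Function.extend_apply' _ _ _ hk] at e3
  have h2 : W.card * Fintype.card (K → Fin s) ≤
      (∑ χ : K → Fin s, (W.filter (fun t => ∀ i, χ (X t i) = i)).card) * s ^ s := by
    have h3 : ∑ χ : K → Fin s, (W.filter (fun t => ∀ i, χ (X t i) = i)).card =
        ∑ t ∈ W, ((univ : Finset (K → Fin s)).filter (fun χ => ∀ i, χ (X t i) = i)).card := by
      simp only [Finset.card_filter]
      exact Finset.sum_comm
    rw [h3, Finset.sum_mul, ← smul_eq_mul, ← Finset.sum_const]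
    exact Finset.sum_le_sum h1
  have h4 : ∃ χ ∈ (univ : Finset (K → Fin s)),
      W.card ≤ (W.filter (fun t => ∀ i, χ (X t i) = i)).card * s ^ s := by
    apply Finset.exists_le_of_sum_le
    · exact ⟨fun _ => ⟨0, hs⟩, Finset.mem_univ _⟩
    · rw [Finset.sum_const, ← Finset.sum_mul, Finset.card_univ, smul_eq_mul, mul_comm]
      exact h2
  obtain ⟨χ, _, hχ⟩ := h4
  exact ⟨χ, hχ⟩

/-- the number of parameters -/
theorem params {K : Type} [Field K] [CharP K 2] [Fintype K] [DecidableEq K] {s : ℕ}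
    (P : Fin s → K) (hK : 2 * s ≤ Fintype.card K) (hs : 1 ≤ s) :
    ∃ W : Finset (K × K × K), (∀ t ∈ W, t.2.1 ≠ 0 ∧ ∀ i, P i + t.2.2 ≠ 0) ∧
      Fintype.card K ^ 3 ≤ 4 * W.card := by
  refine ⟨(univ : Finset K) ×ˢ ((univ.erase 0) ×ˢ (univ \ univ.image P)), ?_, ?_⟩
  · intro t ht
    rw [Finset.mem_product, Finset.mem_product, Finset.mem_erase, Finset.mem_sdiff] at ht
    refine ⟨ht.2.1.1, ?_⟩
    intro i h0
    apply ht.2.2.2
    rw [← CharTwo.add_eq_zero.1 h0]
    exact Finset.mem_image_of_mem _ (Finset.mem_univ i)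
  · rw [Finset.card_product, Finset.card_product, Finset.card_erase_of_mem (Finset.mem_univ _),
      Finset.card_univ]
    have h1 : Fintype.card K - s ≤ (univ \ univ.image P).card := by
      have h2 := Finset.le_card_sdiff (univ.image P) (univ : Finset K)
      have h3 : (univ.image P).card ≤ s := by
        refine Finset.card_image_le.trans ?_
        rw [Finset.card_univ, Fintype.card_fin]
      rw [Finset.card_univ] at h2
      omega
    set n := Fintype.card K with hn
    have h4 : n ≤ 2 * (n - 1) := by omega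
    have h5 : n ≤ 2 * (univ \ univ.image P).card := by omega
    calc n ^ 3 = n * (n * n) := by ring
      _ ≤ n * ((2 * (n - 1)) * (2 * (univ \ univ.image P).card)) := by gcongr
      _ = _ := by ring

end Pool.Agent.TH998.Mex
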