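import Pool.Agent.TH998.Mex.Mob

/-!
# Large cliques
-/

set_option autoImplicit false

namespace Pool.Agent.TH998.Mex

open Finset Pool.Agent.H63R3.PTT Pool.Agent.W834.NG Filter Asymptotics

/-- the constants of the coloured graph -/
noncomputable def cP {K : Type} [Field K] (φ : K →+* K) (m : ℕ) {s : ℕ} (P : Fin s → K) :
    Sym2 (Fin s) → K :=
  Sym2.lift ⟨fun i j => Nm φ m (P i + P j), fun i j => by
    show Nm φ m (P i + P j) = Nm φ m (P j + P i)
    rw [add_comm]⟩

theorem fam_mobius {m s b : ℕ} (hm : 1 ≤ m) (hs : 3 ≤ s) (hb : (s - 2) * m.factorial < b)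
    (l : ℕ) (hl : s ≤ l) : ∃ (V : Type) (_ : Finite V) (G : SimpleGraph V), NoK G (m + 1) b ∧
      G.edgeSet.ncard ≤ 1 * 2 ^ ((2 * m + 1) * l) ∧
      ((2 : ℝ) ^ ((2 * m + 1) * l)) ^ (3 * (m : ℝ) / (2 * m + 1)) ≤
        (4 * s ^ s * s ^ 3) * numCliques s G := by
  classical
  obtain ⟨K, _, _, _, φ, _, hφ, hK, hA, _⟩ := exists_field m l hm (by omega)
  let _ : Fintype (AA φ) := Fintype.ofFinite _
  have hKs : 2 * s ≤ Fintype.card K := by
    rw [hK]
    have h1 : l < 2 ^ l := Nat.lt_two_pow_self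
    have h2 : 2 * l ≤ 2 ^ l := by
      obtain ⟨l', rfl⟩ : ∃ l', l = l' + 1 := ⟨l - 1, by omega⟩
      have : l' + 1 ≤ 2 ^ l' := Nat.lt_two_pow_self
      rw [pow_succ]
      omega
    calc 2 * s ≤ 2 * l := by omega
      _ ≤ 2 ^ l := h2
      _ ≤ 2 ^ (m * l) := Nat.pow_le_pow_right (by norm_num) (Nat.le_mul_of_pos_left _ hm)
  obtain ⟨P⟩ : Nonempty (Fin s ↪ K) :=
    Function.Embedding.nonempty_of_card_le (by rw [Fintype.card_fin]; omega)
  obtain ⟨W, hW, hWc⟩ := params (K := K) (s := s) P hKs (by omega)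
  obtain ⟨χ, hχ⟩ := exists_good_col W s (by omega) (fun t => mp P t)
    (fun t ht => mp_inj P.injective (hW t ht).1 (hW t ht).2)
  have hmob := CG_mobius (φ := φ) (m := m) hm hφ hs χ (cP φ m P) P P.injective
    (fun _ => ⟨1, one_ne_zero, map_one φ⟩) (W.filter (fun t => ∀ i, χ (mp P t i) = i)) (by
      intro t ht
      rw [Finset.mem_filter] at ht
      refine ⟨(hW t ht.1).1, (hW t ht.1).2, ?_⟩
      intro i j _
      rw [ht.2 i, ht.2 j]
      show Nm φ m (P i + P j) = Nm φ m (P i + P j) * (1 * 1)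
      ring)
  refine ⟨K × AA φ, inferInstance, CG φ m χ (cP φ m P), ?_, edges_le hK hA _ _, ?_⟩
  · refine CG_noK hm χ _ ?_ ?_ (by rw [Fintype.card_fin]; exact hb)
    · intro i
      show Nm φ m (P i + P i) = 0
      rw [CharTwo.add_self_eq_zero]
      exact Nm_zero φ m hm
    · refine lt_of_le_of_lt ?_ hb
      exact Nat.le_mul_of_pos_left _ (by omega)
  · rw [numCliques_cl]
    have h1 : Fintype.card K ^ 3 ≤
        (4 * s ^ s * s ^ 3) * cl (CG φ m χ (cP φ m P)) s univ := by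
      calc Fintype.card K ^ 3 ≤ 4 * W.card := hWc
        _ ≤ 4 * ((W.filter (fun t => ∀ i, χ (mp P t i) = i)).card * s ^ s) :=
            Nat.mul_le_mul_left _ hχ
        _ ≤ 4 * ((s ^ 3 * cl (CG φ m χ (cP φ m P)) s univ) * s ^ s) := by gcongr
        _ = _ := by ring
    have h2 : ((2 : ℝ) ^ ((2 * m + 1) * l)) ^ (3 * (m : ℝ) / (2 * m + 1)) =
        ((Fintype.card K ^ 3 : ℕ) : ℝ) := by
      rw [hK, ← Real.rpow_natCast 2 ((2 * m + 1) * l), ← Real.rpow_mul (by norm_num)]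
      have h3 : (((2 * m + 1) * l : ℕ) : ℝ) * (3 * (m : ℝ) / (2 * m + 1)) =
          ((m * l * 3 : ℕ) : ℝ) := by
        push_cast
        have : (2 * (m : ℝ) + 1) ≠ 0 := by positivity
        field_simp
      rw [h3, Real.rpow_natCast]
      push_cast
      rw [pow_mul]
    rw [h2]
    exact_mod_cast h1

/-- four elements at distance one -/
theorem exists_four {K : Type} [Field K] [CharP K 2] [Fintype K] {l : ℕ}
    (hK : Fintype.card K = 2 ^ (2 * l)) : ∃ p : Fin 4 → K, ∀ i j, i ≠ j → (p i + p j) ^ 3 = 1 := by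
  classical
  have h2 : (2 : K) = 0 := CharTwo.two_eq_zero
  have hdvd : 3 ∣ Fintype.card Kˣ := by
    rw [Fintype.card_units, hK, pow_mul]
    have := Nat.sub_dvd_pow_sub_pow (2 ^ 2) 1 l
    simpa using this
  have : Fact (Nat.Prime 3) := ⟨Nat.prime_three⟩
  obtain ⟨x, hx⟩ := exists_prime_orderOf_dvd_card 3 hdvd
  set ω : K := (x : K) with hω
  have h3 : ω ^ 3 = 1 := by
    have := pow_orderOf_eq_one x
    rw [hx] at this
    have h := congrArg Units.val this
    simpa using h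
  have h1 : ω ≠ 1 := by
    intro h
    have h4 : x = 1 := Units.ext h
    rw [h4, orderOf_one] at hx
    omega
  have hq : ω ^ 2 + ω + 1 = 0 := by
    have h4 : (ω - 1) * (ω ^ 2 + ω + 1) = 0 := by linear_combination h3
    rcases mul_eq_zero.1 h4 with h | h
    · exact absurd (sub_eq_zero.1 h) h1
    · exact h
  have e1 : (ω + 1) ^ 3 = 1 := by linear_combination (ω + 2) * hq - h2
  have f1 : (0 : K) + 1 = 1 := zero_add _
  refine ⟨![0, 1, ω, ω + 1], ?_⟩
  have key : ∀ i j : Fin 4, i < j → ((![0, 1, ω, ω + 1] : Fin 4 → K) i +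
      (![0, 1, ω, ω + 1] : Fin 4 → K) j) ^ 3 = 1 := by
    intro i j hij
    fin_cases i <;> fin_cases j <;> first
      | (exfalso; revert hij; decide)
      | skip
    · show ((0 : K) + 1) ^ 3 = 1
      ring
    · show ((0 : K) + ω) ^ 3 = 1
      rw [zero_add, h3]
    · show ((0 : K) + (ω + 1)) ^ 3 = 1
      rw [zero_add, e1]
    · show ((1 : K) + ω) ^ 3 = 1
      rw [add_comm, e1]
    · show ((1 : K) + (ω + 1)) ^ 3 = 1
      have : (1 : K) + (ω + 1) = ω := by linear_combination h2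
      rw [this, h3]
    · show (ω + (ω + 1)) ^ 3 = 1
      have : ω + (ω + 1) = 1 := by linear_combination ω * h2
      rw [this, one_pow]
  intro i j hij
  rcases lt_or_gt_of_ne hij with h | h
  · exact key i j h
  · rw [add_comm]
    exact key j i h

theorem Nm_two {K : Type} [Field K] (φ : K →+* K) (x : K) : Nm φ 2 x = x * φ x := by
  unfold Nm
  rw [Fin.prod_univ_two]
  rfl

/-- five points with norm one relations -/
theorem exists_five {K : Type} [Field K] [CharP K 2] [Fintype K] {l : ℕ} (hl : Odd l)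
    (hK : Fintype.card K = 2 ^ (2 * l)) (hK5 : 4 < Fintype.card K) (φ : K →+* K)
    (hφ : ∀ x, φ^[2] x = x) (hφ' : ∀ x, φ x = x ^ (2 ^ l)) :
    ∃ (P : Fin 5 → K) (γ : Fin 5 → AA φ), ∀ i j, i ≠ j → Nm φ 2 (P i + P j) = (γ i : K) * γ j := by
  classical
  obtain ⟨p, hp⟩ := exists_four hK
  have hN1 : ∀ x : K, x ^ 3 = 1 → Nm φ 2 x = 1 := by
    intro x hx
    rw [Nm_two, hφ', ← pow_succ']
    obtain ⟨k, hk⟩ : 3 ∣ 2 ^ l + 1 := by
      have := Odd.nat_add_dvd_pow_add_pow 2 1 hl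
      simpa using this
    rw [hk, pow_mul, hx, one_pow]
  obtain ⟨δ, _, hδ⟩ := Finset.exists_mem_notMem_of_card_lt_card
    (s := univ.image p) (t := (univ : Finset K)) (by
      refine lt_of_le_of_lt Finset.card_image_le ?_
      rw [Finset.card_univ, Finset.card_univ, Fintype.card_fin]
      exact hK5)
  have hd : ∀ i, p i + δ ≠ 0 := by
    intro i h0
    apply hδ
    rw [← CharTwo.add_eq_zero.1 h0]
    exact Finset.mem_image_of_mem _ (Finset.mem_univ i)
  have hdi : ∀ i, (p i + δ)⁻¹ ≠ 0 := fun i => inv_ne_zero (hd i)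
  refine ⟨Fin.cons 0 (fun i : Fin 4 => (p i + δ)⁻¹),
    Fin.cons ⟨1, one_ne_zero, map_one φ⟩ (fun i : Fin 4 =>
      ⟨Nm φ 2 (p i + δ)⁻¹, Nm_ne φ 2 (hdi i), Nm_fix φ 2 (by norm_num) hφ _⟩), ?_⟩
  intro i j
  refine Fin.cases ?_ (fun i => ?_) i
  · refine Fin.cases ?_ (fun j => ?_) j
    · intro h
      exact absurd rfl h
    · intro _
      simp only [Fin.cons_zero, Fin.cons_succ, zero_add, one_mul]
  · refine Fin.cases ?_ (fun j => ?_) j
    · intro _
      simp only [Fin.cons_zero, Fin.cons_succ, add_zero, mul_one]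
    · intro hij
      have hij' : i ≠ j := fun h => hij (by rw [h])
      simp only [Fin.cons_succ]
      have h2 : (2 : K) = 0 := CharTwo.two_eq_zero
      have e : (p i + δ)⁻¹ + (p j + δ)⁻¹ = (p i + p j) * ((p i + δ)⁻¹ * (p j + δ)⁻¹) := by
        have h3 := hd i
        have h4 := hd j
        field_simp
        linear_combination δ * h2
      rw [e, Nm_mul, Nm_mul, hN1 _ (hp i j hij'), one_mul]

theorem fam_plain {s b : ℕ} (hs : 3 ≤ s) (hs5 : s ≤ 5) (hb : 2 < b) (k : ℕ) (hk : 2 ≤ k) :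
    ∃ (V : Type) (_ : Finite V) (G : SimpleGraph V), NoK G 3 b ∧
      G.edgeSet.ncard ≤ 32 * 2 ^ (10 * k) ∧
      ((2 : ℝ) ^ (10 * k)) ^ ((6 : ℝ) / 5) ≤ (4 * s ^ 3) * numCliques s G := by
  classical
  set l := 2 * k + 1 with hl
  obtain ⟨K, _, _, _, φ, _, hφ, hK, hA, hφ'⟩ := exists_field 2 l (by norm_num) (by omega)
  let _ : Fintype (AA φ) := Fintype.ofFinite _
  have hK10 : 2 * 5 ≤ Fintype.card K := by
    rw [hK]
    calc 2 * 5 ≤ 2 ^ 10 := by norm_num
      _ ≤ 2 ^ (2 * l) := Nat.pow_le_pow_right (by norm_num) (by omega)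
  obtain ⟨P, γ, hP⟩ := exists_five (l := l) ⟨k, hl⟩ hK (by omega) φ hφ hφ'
  let e : Fin s → Fin 5 := Fin.castLE hs5
  have he : Function.Injective e := Fin.castLE_injective hs5
  have hPi : Function.Injective (fun i => P (e i)) := by
    intro i j hij
    by_contra h
    have h1 := hP (e i) (e j) (fun h' => h (he h'))
    simp only at hij
    rw [hij, CharTwo.add_self_eq_zero, Nm_zero φ 2 (by norm_num)] at h1
    exact mul_ne_zero (γ (e i)).2.1 (γ (e j)).2.1 h1.symm
  obtain ⟨W, hW, hWc⟩ := params (K := K) (s := s) (fun i => P (e i)) (by omega) (by omega)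
  have hmob := CG_mobius (φ := φ) (m := 2) (by norm_num) hφ hs (fun _ : K => ())
    (fun _ => 1) (fun i => P (e i)) hPi (fun i => γ (e i)) W (by
      intro t ht
      refine ⟨(hW t ht).1, (hW t ht).2, ?_⟩
      intro i j hij
      rw [one_mul]
      exact hP _ _ (fun h => hij (he h)))
  refine ⟨K × AA φ, inferInstance, CG φ 2 (fun _ : K => ()) (fun _ => 1), ?_, ?_, ?_⟩
  · exact CG_noK_plain (by norm_num) _ (by simpa [Nat.factorial] using hb)
  · refine (edges_le hK hA _ _).trans (le_of_eq ?_)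
    rw [one_mul, hl]
    have : (2 * 2 + 1) * (2 * k + 1) = 5 + 10 * k := by ring
    rw [this, pow_add]
    norm_num
  · rw [numCliques_cl]
    have h1 : Fintype.card K ^ 3 ≤
        (4 * s ^ 3) * cl (CG φ 2 (fun _ : K => ()) (fun _ => 1)) s univ := by
      calc Fintype.card K ^ 3 ≤ 4 * W.card := hWc
        _ ≤ 4 * (s ^ 3 * cl (CG φ 2 (fun _ : K => ()) (fun _ => 1)) s univ) :=
            Nat.mul_le_mul_left _ hmob
        _ = _ := by ring
    have h2 : ((2 : ℝ) ^ (10 * k)) ^ ((6 : ℝ) / 5) ≤ ((Fintype.card K ^ 3 : ℕ) : ℝ) := by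
      rw [hK, ← Real.rpow_natCast 2 (10 * k), ← Real.rpow_mul (by norm_num)]
      have h3 : ((10 * k : ℕ) : ℝ) * (6 / 5) = ((12 * k : ℕ) : ℝ) := by
        push_cast
        ring
      rw [h3, Real.rpow_natCast]
      push_cast
      rw [← pow_mul]
      exact pow_le_pow_right₀ (by norm_num) (by omega)
    refine h2.trans ?_
    exact_mod_cast h1

end Pool.Agent.TH998.Mex
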