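import Pool.Agent.TH998.Mex.Low

/-!
# From graphs with at most `m` edges to `mex`
-/

set_option autoImplicit false

namespace Pool.Agent.TH998.Mex

open Finset Pool.Agent.H63R3.PTT Pool.Agent.W834.NG Filter Asymptotics

/-- add `k` disjoint edges -/
def pad {V : Type} (G : SimpleGraph V) (k : ℕ) : SimpleGraph (V ⊕ (Fin k × Bool)) where
  Adj u v := (∃ x y, u = Sum.inl x ∧ v = Sum.inl y ∧ G.Adj x y) ∨
    (∃ i z, u = Sum.inr (i, z) ∧ v = Sum.inr (i, !z))
  symm := ⟨fun u v h => by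
    rcases h with ⟨x, y, h1, h2, h3⟩ | ⟨i, z, h1, h2⟩
    · exact Or.inl ⟨y, x, h2, h1, h3.symm⟩
    · exact Or.inr ⟨i, !z, h2, by rw [h1, Bool.not_not]⟩⟩
  loopless := ⟨fun u h => by
    rcases h with ⟨x, y, h1, h2, h3⟩ | ⟨i, z, h1, h2⟩
    · rw [h1] at h2
      have := Sum.inl_injective h2
      subst this
      exact G.loopless.irrefl _ h3
    · rw [h1] at h2
      have := Sum.inr_injective h2
      have h3 := congrArg Prod.snd this
      cases z <;> simp at h3⟩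

theorem pad_inl {V : Type} {G : SimpleGraph V} {k : ℕ} {x : V} {v : V ⊕ (Fin k × Bool)} :
    (pad G k).Adj (Sum.inl x) v ↔ ∃ y, v = Sum.inl y ∧ G.Adj x y := by
  constructor
  · rintro (⟨x', y, h1, h2, h3⟩ | ⟨i, z, h1, h2⟩)
    · have := Sum.inl_injective h1
      subst this
      exact ⟨y, h2, h3⟩
    · simp at h1
  · rintro ⟨y, h1, h2⟩
    exact Or.inl ⟨x, y, rfl, h1, h2⟩

theorem pad_inr {V : Type} {G : SimpleGraph V} {k : ℕ} {p : Fin k × Bool}
    {v : V ⊕ (Fin k × Bool)} :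
    (pad G k).Adj (Sum.inr p) v ↔ v = Sum.inr (p.1, !p.2) := by
  constructor
  · rintro (⟨x', y, h1, h2, h3⟩ | ⟨i, z, h1, h2⟩)
    · simp at h1
    · have := Sum.inr_injective h1
      subst this
      exact h2
  · intro h
    exact Or.inr ⟨p.1, p.2, rfl, h⟩

theorem pad_edges {V : Type} [Finite V] (G : SimpleGraph V) (k : ℕ) :
    (pad G k).edgeSet.ncard = G.edgeSet.ncard + k := by
  classical
  have := Fintype.ofFinite V
  have h1 := sum_nb (pad G k)
  have h2 := sum_nb G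
  rw [Fintype.sum_sum_type] at h1
  have h3 : ∀ x : V, (nb (pad G k) univ (Sum.inl x)).card = (nb G univ x).card := by
    intro x
    rw [← Finset.card_map (s := nb G univ x) ⟨Sum.inl, Sum.inl_injective⟩]
    congr 1
    ext v
    rw [mem_nb, pad_inl, Finset.mem_map]
    constructor
    · rintro ⟨_, y, h1, h2⟩
      exact ⟨y, mem_nb.2 ⟨Finset.mem_univ _, h2⟩, h1.symm⟩
    · rintro ⟨y, h1, h2⟩
      exact ⟨Finset.mem_univ _, y, h2.symm, (mem_nb.1 h1).2⟩
  have h4 : ∀ p : Fin k × Bool, (nb (pad G k) univ (Sum.inr p)).card = 1 := by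
    intro p
    rw [Finset.card_eq_one]
    refine ⟨Sum.inr (p.1, !p.2), ?_⟩
    ext v
    rw [mem_nb, pad_inr, Finset.mem_singleton]
    simp
  simp only [h3, h4] at h1
  rw [h2] at h1
  simp only [Finset.sum_const, Finset.card_univ, Fintype.card_prod, Fintype.card_fin,
    Fintype.card_bool, smul_eq_mul, mul_one] at h1
  omega

theorem pad_noK {V : Type} {G : SimpleGraph V} {a b : ℕ} (ha : 1 ≤ a) (hb : 2 ≤ b)
    (h : NoK G a b) (k : ℕ) : NoK (pad G k) a b := by
  rintro ⟨x, y, hx, hy, hadj⟩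
  have hx0 : ∃ u, x ⟨0, by omega⟩ = Sum.inl u := by
    rcases hxx : x ⟨0, by omega⟩ with u | p
    · exact ⟨u, rfl⟩
    · exfalso
      have h1 := hadj ⟨0, by omega⟩ ⟨0, by omega⟩
      have h2 := hadj ⟨0, by omega⟩ ⟨1, by omega⟩
      rw [hxx, pad_inr] at h1 h2
      have h3 := hy (h1.trans h2.symm)
      simp at h3
  obtain ⟨u, hu⟩ := hx0
  have hyj : ∀ j, ∃ v, y j = Sum.inl v := by
    intro j
    have h1 := hadj ⟨0, by omega⟩ j
    rw [hu, pad_inl] at h1
    obtain ⟨v, hv, _⟩ := h1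
    exact ⟨v, hv⟩
  choose y' hy' using hyj
  have hxi : ∀ i, ∃ v, x i = Sum.inl v := by
    intro i
    have h1 := (hadj i ⟨0, by omega⟩).symm
    rw [hy', pad_inl] at h1
    obtain ⟨v, hv, _⟩ := h1
    exact ⟨v, hv⟩
  choose x' hx' using hxi
  apply h
  refine ⟨x', y', ?_, ?_, ?_⟩
  · intro i j hij
    apply hx
    rw [hx', hx', hij]
  · intro i j hij
    apply hy
    rw [hy', hy', hij]
  · intro i j
    have h1 := hadj i j
    rw [hx', pad_inl] at h1
    obtain ⟨v, hv, h2⟩ := h1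
    rw [hy'] at hv
    rw [Sum.inl_injective hv]
    exact h2

theorem pad_cliques {V : Type} [Finite V] (G : SimpleGraph V) (k s : ℕ) :
    numCliques s G ≤ numCliques s (pad G k) := by
  classical
  have := Fintype.ofFinite V
  rw [numCliques_cl, numCliques_cl, cl, cl]
  refine Finset.card_le_card_of_injOn
    (fun S => S.map ⟨Sum.inl, Sum.inl_injective⟩) ?_ ?_
  · intro S hS
    rw [Finset.mem_coe, mem_cls] at hS ⊢
    refine ⟨Finset.subset_univ _, by rw [Finset.card_map]; exact hS.2.1, ?_⟩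
    intro u hu v hv huv
    rw [Finset.mem_coe, Finset.mem_map] at hu hv
    obtain ⟨x, hx, rfl⟩ := hu
    obtain ⟨y, hy, rfl⟩ := hv
    have hxy : x ≠ y := fun h => huv (by rw [h])
    exact pad_inl.2 ⟨y, rfl, hS.2.2 hx hy hxy⟩
  · intro S _ S' _ h
    exact Finset.map_injective _ h

/-- the set in the definition of `mex` is bounded -/
theorem mex_bdd {a b s m : ℕ} (ha : 2 ≤ a) (hs : 2 ≤ s) (hm : 1 ≤ m) :
    BddAbove {c | ∃ (V : Type) (_ : Finite V) (G : SimpleGraph V),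
      (completeBipartiteGraph (Fin a) (Fin b)).Free G ∧ G.edgeSet.ncard = m ∧
        numCliques s G = c} := by
  rcases le_or_gt s (a + 1) with h | h
  · obtain ⟨C, _, hC⟩ := upper_small (a := a) (b := b) (s := s) ha hs h
    refine ⟨⌈C * (m : ℝ) ^ em s a⌉₊, ?_⟩
    rintro c ⟨V, hV, G, hG, hGm, rfl⟩
    have := hC V G m hm hG hGm
    have h2 := Nat.le_ceil (C * (m : ℝ) ^ em s a)
    exact_mod_cast this.trans h2
  · obtain ⟨C, _, hC⟩ := upper_large (a := a) (b := b) (s := s) ha (by omega)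
    refine ⟨⌈C * (m : ℝ) ^ em a a⌉₊, ?_⟩
    rintro c ⟨V, hV, G, hG, hGm, rfl⟩
    have := hC V G m hm hG hGm
    have h2 := Nat.le_ceil (C * (m : ℝ) ^ em a a)
    exact_mod_cast this.trans h2

theorem le_mex {a b s m : ℕ} (ha : 2 ≤ a) (hb : 2 ≤ b) (hs : 2 ≤ s) (hm : 1 ≤ m) {V : Type}
    [Finite V] (G : SimpleGraph V) (hG : NoK G a b) (hGm : G.edgeSet.ncard ≤ m) :
    numCliques s G ≤ mex s m (completeBipartiteGraph (Fin a) (Fin b)) := by
  refine (pad_cliques G (m - G.edgeSet.ncard) s).trans ?_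
  apply le_csSup (mex_bdd ha hs hm)
  refine ⟨_, inferInstance, pad G (m - G.edgeSet.ncard), ?_, ?_, rfl⟩
  · exact free_of_noK (pad_noK (by omega) hb hG _) b le_rfl
  · rw [pad_edges]
    omega

/-- from a family of graphs to a lower bound for `mex` -/
theorem mex_lower {a b s : ℕ} (ha : 2 ≤ a) (hb : 2 ≤ b) (hs : 2 ≤ s) (g W k0 : ℕ) (hg : 1 ≤ g)
    (hW : 1 ≤ W) (E C : ℝ) (hE : 0 ≤ E) (hC : 0 < C)
    (h : ∀ k, k0 ≤ k → ∃ (V : Type) (_ : Finite V) (G : SimpleGraph V), NoK G a b ∧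
      G.edgeSet.ncard ≤ W * 2 ^ (g * k) ∧ ((2 : ℝ) ^ (g * k)) ^ E ≤ C * numCliques s G) :
    (fun m : ℕ => (m : ℝ) ^ E) =O[atTop]
      (fun m : ℕ => (mex s m (completeBipartiteGraph (Fin a) (Fin b)) : ℝ)) := by
  refine IsBigO.of_bound (((W : ℝ) * 2 ^ g) ^ E * C)
    (eventually_atTop.2 ⟨W * 2 ^ (g * k0), fun m hm => ?_⟩)
  have hW' : (1 : ℝ) ≤ W := by exact_mod_cast hW
  have hm1 : 1 ≤ m := by
    refine le_trans ?_ hm
    exact Nat.mul_pos hW (by positivity)
  -- choose `k`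
  obtain ⟨k, hk0, hk1, hk2⟩ : ∃ k, k0 ≤ k ∧ W * 2 ^ (g * k) ≤ m ∧ m < W * 2 ^ (g * (k + 1)) := by
    have hex : ∃ k, m < W * 2 ^ (g * (k + 1)) := by
      refine ⟨m, ?_⟩
      calc m < 2 ^ m := Nat.lt_two_pow_self
        _ ≤ 2 ^ (g * (m + 1)) := Nat.pow_le_pow_right (by norm_num) (by nlinarith)
        _ ≤ W * 2 ^ (g * (m + 1)) := Nat.le_mul_of_pos_left _ hW
    refine ⟨Nat.find hex, ?_, ?_, Nat.find_spec hex⟩
    · by_contra hcon
      push Not at hcon
      have h1 := Nat.find_spec hex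
      have h2 : W * 2 ^ (g * (Nat.find hex + 1)) ≤ W * 2 ^ (g * k0) := by
        apply Nat.mul_le_mul_left
        apply Nat.pow_le_pow_right (by norm_num)
        exact Nat.mul_le_mul_left _ hcon
      omega
    · rcases Nat.eq_zero_or_pos (Nat.find hex) with h0 | h0
      · rw [h0]
        have h3 : W * 2 ^ (g * 0) ≤ W * 2 ^ (g * k0) := by
          apply Nat.mul_le_mul_left
          apply Nat.pow_le_pow_right (by norm_num)
          exact Nat.mul_le_mul_left _ (Nat.zero_le _)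
        exact h3.trans hm
      · have h1 := Nat.find_min hex (m := Nat.find hex - 1) (by omega)
        have e : Nat.find hex - 1 + 1 = Nat.find hex := by omega
        rw [e] at h1
        omega
  obtain ⟨V, _, G, hG, hGe, hGc⟩ := h k hk0
  have h1 := le_mex ha hb hs hm1 G hG (hGe.trans hk1)
  have h2 : (m : ℝ) ≤ (W * 2 ^ g) * 2 ^ (g * k) := by
    have h3 : m ≤ W * 2 ^ (g * (k + 1)) := hk2.le
    have h4 : W * 2 ^ (g * (k + 1)) = (W * 2 ^ g) * 2 ^ (g * k) := by
      rw [Nat.mul_add, pow_add, mul_one]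
      ring
    rw [h4] at h3
    exact_mod_cast h3
  have h5 : (m : ℝ) ^ E ≤ (W * 2 ^ g) ^ E * ((2 : ℝ) ^ (g * k)) ^ E := by
    rw [← Real.mul_rpow (by positivity) (by positivity)]
    exact Real.rpow_le_rpow (Nat.cast_nonneg _) h2 hE
  rw [Real.norm_of_nonneg (by positivity), Real.norm_natCast]
  calc (m : ℝ) ^ E ≤ (W * 2 ^ g) ^ E * ((2 : ℝ) ^ (g * k)) ^ E := h5
    _ ≤ (W * 2 ^ g) ^ E * (C * numCliques s G) := by
        apply mul_le_mul_of_nonneg_left hGc (by positivity)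
    _ ≤ (W * 2 ^ g) ^ E * (C * mex s m (completeBipartiteGraph (Fin a) (Fin b))) := by
        have : (numCliques s G : ℝ) ≤ mex s m (completeBipartiteGraph (Fin a) (Fin b)) := by
          exact_mod_cast h1
        gcongr
    _ = _ := by ring

theorem mex_upper_small {a b s : ℕ} (ha : 2 ≤ a) (hs2 : 2 ≤ s) (hsa : s ≤ a + 1) :
    (fun m : ℕ => (mex s m (completeBipartiteGraph (Fin a) (Fin b)) : ℝ)) =O[atTop]
      (fun m : ℕ => (m : ℝ) ^ em s a) := by
  obtain ⟨C, hC0, hC⟩ := upper_small (a := a) (b := b) (s := s) ha hs2 hsa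
  refine IsBigO.of_bound C (eventually_atTop.2 ⟨1, fun m hm => ?_⟩)
  rw [Real.norm_of_nonneg (by positivity), Real.norm_of_nonneg (by positivity)]
  have hle : mex s m (completeBipartiteGraph (Fin a) (Fin b)) ≤ ⌊C * (m : ℝ) ^ em s a⌋₊ := by
    apply csSup_le'
    rintro c ⟨V, hV, G, hG, hGm, rfl⟩
    exact Nat.le_floor (hC V G m hm hG hGm)
  exact (Nat.cast_le.2 hle).trans (Nat.floor_le (by positivity))

theorem mex_upper_large {a b s : ℕ} (ha : 2 ≤ a) (hsa : a ≤ s) :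
    (fun m : ℕ => (mex s m (completeBipartiteGraph (Fin a) (Fin b)) : ℝ)) =O[atTop]
      (fun m : ℕ => (m : ℝ) ^ em a a) := by
  obtain ⟨C, hC0, hC⟩ := upper_large (a := a) (b := b) (s := s) ha hsa
  refine IsBigO.of_bound C (eventually_atTop.2 ⟨1, fun m hm => ?_⟩)
  rw [Real.norm_of_nonneg (by positivity), Real.norm_of_nonneg (by positivity)]
  have hle : mex s m (completeBipartiteGraph (Fin a) (Fin b)) ≤ ⌊C * (m : ℝ) ^ em a a⌋₊ := by
    apply csSup_le'
    rintro c ⟨V, hV, G, hG, hGm, rfl⟩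
    exact Nat.le_floor (hC V G m hm hG hGm)
  exact (Nat.cast_le.2 hle).trans (Nat.floor_le (by positivity))

end Pool.Agent.TH998.Mex
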