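import Mathlib

/-!
# Cliques in graphs without complete bipartite subgraphs: upper bounds
-/

set_option autoImplicit false

namespace Pool.Agent.TH998.Mex

open Finset

variable {V : Type} [DecidableEq V]

open Classical in
/-- the `k`-cliques inside `A` -/
noncomputable def cls (G : SimpleGraph V) (k : ℕ) (A : Finset V) : Finset (Finset V) :=
  (A.powersetCard k).filter fun S => G.IsClique (S : Set V)

/-- the number of `k`-cliques inside `A` -/
noncomputable def cl (G : SimpleGraph V) (k : ℕ) (A : Finset V) : ℕ := (cls G k A).card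

open Classical in
/-- the neighbours inside `A` -/
noncomputable def nb (G : SimpleGraph V) (A : Finset V) (v : V) : Finset V :=
  A.filter fun w => G.Adj v w

open Classical in
/-- `a` vertices of `A` have fewer than `b` common neighbours in `A` -/
def Loc (G : SimpleGraph V) (a b : ℕ) (A : Finset V) : Prop :=
  ∀ T ⊆ A, T.card = a → (A.filter fun v => ∀ t ∈ T, G.Adj v t).card < b

theorem mem_cls {G : SimpleGraph V} {k : ℕ} {A S : Finset V} :
    S ∈ cls G k A ↔ S ⊆ A ∧ S.card = k ∧ G.IsClique (S : Set V) := by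
  classical
  unfold cls
  rw [Finset.mem_filter, Finset.mem_powersetCard]
  tauto

theorem mem_nb {G : SimpleGraph V} {A : Finset V} {v w : V} :
    w ∈ nb G A v ↔ w ∈ A ∧ G.Adj v w := by
  classical
  unfold nb
  rw [Finset.mem_filter]

theorem nb_subset (G : SimpleGraph V) (A : Finset V) (v : V) : nb G A v ⊆ A :=
  fun _ h => (mem_nb.1 h).1

theorem Loc.mono {G : SimpleGraph V} {a b : ℕ} {A B : Finset V} (h : Loc G a b A) (hB : B ⊆ A) :
    Loc G a b B := by
  classical
  intro T hT hTa
  refine lt_of_le_of_lt (Finset.card_le_card ?_) (h T (hT.trans hB) hTa)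
  intro v hv
  rw [Finset.mem_filter] at hv ⊢
  exact ⟨hB hv.1, hv.2⟩

theorem Loc.nb {G : SimpleGraph V} {a b : ℕ} {A : Finset V} (h : Loc G (a + 1) b A) {v : V}
    (hv : v ∈ A) : Loc G a b (nb G A v) := by
  classical
  intro T hT hTa
  have hvT : v ∉ T := fun hv' => G.loopless.irrefl v (mem_nb.1 (hT hv')).2
  have h1 : insert v T ⊆ A := by
    intro w hw
    rcases Finset.mem_insert.1 hw with rfl | hw
    · exact hv
    · exact (mem_nb.1 (hT hw)).1
  refine lt_of_le_of_lt (Finset.card_le_card ?_) (h (insert v T) h1 (by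
    rw [Finset.card_insert_of_notMem hvT, hTa]))
  intro w hw
  rw [Finset.mem_filter] at hw ⊢
  refine ⟨(mem_nb.1 hw.1).1, ?_⟩
  intro t ht
  rcases Finset.mem_insert.1 ht with rfl | ht
  · exact (mem_nb.1 hw.1).2.symm
  · exact hw.2 t ht

open Classical in
theorem cl_split (G : SimpleGraph V) (k : ℕ) (A : Finset V) (p : V → Prop) :
    cl G (k + 1) A ≤ cl G (k + 1) (A.filter p) +
      ∑ v ∈ A.filter (fun v => ¬ p v), cl G k (nb G A v) := by
  have h1 : cls G (k + 1) A ⊆ cls G (k + 1) (A.filter p) ∪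
      (A.filter (fun v => ¬ p v)).biUnion
        (fun v => (cls G k (nb G A v)).image (fun S => insert v S)) := by
    intro S hS
    rw [mem_cls] at hS
    obtain ⟨hSA, hSk, hSc⟩ := hS
    by_cases hp : ∀ v ∈ S, p v
    · apply Finset.mem_union_left
      rw [mem_cls]
      refine ⟨fun v hv => Finset.mem_filter.2 ⟨hSA hv, hp v hv⟩, hSk, hSc⟩
    · push Not at hp
      obtain ⟨v, hv, hpv⟩ := hp
      apply Finset.mem_union_right
      rw [Finset.mem_biUnion]
      refine ⟨v, Finset.mem_filter.2 ⟨hSA hv, hpv⟩, ?_⟩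
      rw [Finset.mem_image]
      refine ⟨S.erase v, ?_, Finset.insert_erase hv⟩
      rw [mem_cls]
      refine ⟨?_, ?_, ?_⟩
      · intro w hw
        rw [Finset.mem_erase] at hw
        exact mem_nb.2 ⟨hSA hw.2, hSc hv hw.2 (Ne.symm hw.1)⟩
      · rw [Finset.card_erase_of_mem hv, hSk]
        rfl
      · exact hSc.subset (by
          rw [Finset.coe_subset]
          exact Finset.erase_subset _ _)
  unfold cl
  refine (Finset.card_le_card h1).trans ((Finset.card_union_le _ _).trans ?_)
  apply Nat.add_le_add le_rfl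
  refine Finset.card_biUnion_le.trans ?_
  exact Finset.sum_le_sum fun v _ => Finset.card_image_le

theorem cl_le_sum (G : SimpleGraph V) (k : ℕ) (A : Finset V) :
    cl G (k + 1) A ≤ ∑ v ∈ A, cl G k (nb G A v) := by
  classical
  have h := cl_split G k A (fun _ => False)
  have h0 : cl G (k + 1) (∅ : Finset V) = 0 := by
    unfold cl
    rw [Finset.card_eq_zero, Finset.eq_empty_iff_forall_notMem]
    intro S hS
    rw [mem_cls, Finset.subset_empty] at hS
    obtain ⟨h1, h2, _⟩ := hS
    rw [h1] at h2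
    simp at h2
  simp only [Finset.filter_false, not_false_eq_true, Finset.filter_true, h0, zero_add] at h
  exact h

/-- double counting -/
theorem sum_choose {G : SimpleGraph V} {a b : ℕ} {A : Finset V} (h : Loc G a b A) :
    ∑ v ∈ A, (nb G A v).card.choose a ≤ A.card.choose a * b := by
  classical
  have h1 : ∀ v, (nb G A v).card.choose a =
      ((A.powersetCard a).filter fun T => T ⊆ nb G A v).card := by
    intro v
    rw [← Finset.card_powersetCard]
    congr 1
    ext T
    rw [Finset.mem_filter, Finset.mem_powersetCard, Finset.mem_powersetCard]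
    constructor
    · rintro ⟨h1, h2⟩
      exact ⟨⟨h1.trans (nb_subset G A v), h2⟩, h1⟩
    · rintro ⟨⟨_, h2⟩, h3⟩
      exact ⟨h3, h2⟩
  calc ∑ v ∈ A, (nb G A v).card.choose a
      = ∑ v ∈ A, ∑ T ∈ A.powersetCard a, if T ⊆ nb G A v then 1 else 0 := by
        refine Finset.sum_congr rfl fun v _ => ?_
        rw [h1, Finset.card_filter]
    _ = ∑ T ∈ A.powersetCard a, ∑ v ∈ A, if T ⊆ nb G A v then 1 else 0 := Finset.sum_comm
    _ ≤ ∑ T ∈ A.powersetCard a, b := by
        refine Finset.sum_le_sum fun T hT => ?_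
        rw [Finset.mem_powersetCard] at hT
        rw [← Finset.card_filter]
        refine le_trans (Finset.card_le_card ?_) (h T hT.1 hT.2).le
        intro v hv
        rw [Finset.mem_filter] at hv ⊢
        exact ⟨hv.1, fun t ht => (mem_nb.1 (hv.2 ht)).2⟩
    _ = A.card.choose a * b := by rw [Finset.sum_const, Finset.card_powersetCard, smul_eq_mul]

theorem pow_le_choose' {a : ℕ} (ha : 1 ≤ a) (d : ℕ) :
    d ^ a ≤ a ^ a * a.factorial * d.choose a + a ^ a := by
  rcases lt_or_ge d a with h | h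
  · exact le_trans (Nat.pow_le_pow_left h.le a) (Nat.le_add_left _ _)
  · have h1 : (d + 1 - a) ^ a ≤ a.factorial * d.choose a := by
      have h2 := Nat.pow_sub_le_descFactorial d a
      rw [Nat.descFactorial_eq_factorial_mul_choose] at h2
      exact h2
    have h2 : d ≤ a * (d + 1 - a) := by
      obtain ⟨u, rfl⟩ := Nat.exists_eq_add_of_le h
      have e : a + u + 1 - a = u + 1 := by omega
      rw [e]
      nlinarith
    calc d ^ a ≤ (a * (d + 1 - a)) ^ a := Nat.pow_le_pow_left h2 a
      _ = a ^ a * (d + 1 - a) ^ a := mul_pow _ _ _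
      _ ≤ a ^ a * (a.factorial * d.choose a) := Nat.mul_le_mul_left _ h1
      _ = a ^ a * a.factorial * d.choose a := by ring
      _ ≤ _ := Nat.le_add_right _ _

theorem sum_pow_le {G : SimpleGraph V} {a b : ℕ} (ha : 1 ≤ a) {A : Finset V} (h : Loc G a b A) :
    ∑ v ∈ A, (nb G A v).card ^ a ≤ (a ^ a * a.factorial * b + a ^ a) * A.card ^ a := by
  calc ∑ v ∈ A, (nb G A v).card ^ a
      ≤ ∑ v ∈ A, (a ^ a * a.factorial * (nb G A v).card.choose a + a ^ a) :=
        Finset.sum_le_sum fun v _ => pow_le_choose' ha _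
    _ = a ^ a * a.factorial * ∑ v ∈ A, (nb G A v).card.choose a + A.card * a ^ a := by
        rw [Finset.sum_add_distrib, ← Finset.mul_sum, Finset.sum_const, smul_eq_mul]
    _ ≤ a ^ a * a.factorial * (A.card ^ a * b) + A.card ^ a * a ^ a := by
        apply Nat.add_le_add
        · apply Nat.mul_le_mul_left
          exact (sum_choose h).trans (Nat.mul_le_mul_right _ (Nat.choose_le_pow _ _))
        · apply Nat.mul_le_mul_right
          exact Nat.le_self_pow (by omega) _
    _ = _ := by ring

/-- a power mean inequality -/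
theorem sum_rpow_le {G : SimpleGraph V} {a b : ℕ} (ha : 1 ≤ a) {A : Finset V} (h : Loc G a b A)
    (hA : A.Nonempty) {e : ℝ} (he0 : 0 ≤ e) (hea : e ≤ a) :
    ∑ v ∈ A, ((nb G A v).card : ℝ) ^ e ≤ (1 + (a ^ a * a.factorial * b + a ^ a : ℕ)) *
      (A.card : ℝ) ^ (1 + e * (a - 1) / a) := by
  set n : ℝ := (A.card : ℝ) with hn
  have hn1 : 1 ≤ n := by
    rw [hn]
    exact_mod_cast hA.card_pos
  have hn0 : 0 < n := by linarith
  have ha' : (1 : ℝ) ≤ a := by exact_mod_cast ha
  have ha0 : (0 : ℝ) < a := by linarith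
  set D : ℝ := n ^ (((a : ℝ) - 1) / a) with hD
  have hD0 : 0 < D := Real.rpow_pos_of_pos hn0 _
  have key : ∀ v ∈ A, ((nb G A v).card : ℝ) ^ e ≤
      D ^ e + ((nb G A v).card : ℝ) ^ a * D ^ (e - a) := by
    intro v _
    set d : ℝ := ((nb G A v).card : ℝ) with hd
    have hd0 : 0 ≤ d := Nat.cast_nonneg _
    rcases le_or_gt d D with h1 | h1
    · have := Real.rpow_le_rpow hd0 h1 he0
      have h2 : 0 ≤ d ^ a * D ^ (e - a) := by positivity
      linarith
    · have hd1 : 0 < d := hD0.trans h1
      have h2 : d ^ e = d ^ a * d ^ (e - a) := by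
        rw [← Real.rpow_natCast d a, ← Real.rpow_add hd1]
        congr 1
        ring
      have h3 : d ^ (e - a) ≤ D ^ (e - a) :=
        Real.rpow_le_rpow_of_nonpos hD0 h1.le (by linarith)
      have h4 : 0 ≤ D ^ e := by positivity
      rw [h2]
      have := mul_le_mul_of_nonneg_left h3 (pow_nonneg hd0 a)
      linarith
  set C' : ℕ := a ^ a * a.factorial * b + a ^ a with hC'
  have hsum : ∑ v ∈ A, ((nb G A v).card : ℝ) ^ a ≤ C' * n ^ a := by
    have := sum_pow_le ha h
    rw [hn]
    exact_mod_cast this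
  have e1 : n * D ^ e = n ^ (1 + e * (a - 1) / a) := by
    rw [hD, ← Real.rpow_mul hn0.le, Real.rpow_add hn0, Real.rpow_one]
    congr 2
    ring
  have e2 : n ^ a * D ^ (e - a) = n ^ (1 + e * (a - 1) / a) := by
    rw [hD, ← Real.rpow_mul hn0.le, ← Real.rpow_natCast n a, ← Real.rpow_add hn0]
    congr 1
    field_simp
    ring
  calc ∑ v ∈ A, ((nb G A v).card : ℝ) ^ e
      ≤ ∑ v ∈ A, (D ^ e + ((nb G A v).card : ℝ) ^ a * D ^ (e - a)) := Finset.sum_le_sum key
    _ = n * D ^ e + (∑ v ∈ A, ((nb G A v).card : ℝ) ^ a) * D ^ (e - a) := by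
        rw [Finset.sum_add_distrib, Finset.sum_const, nsmul_eq_mul, Finset.sum_mul]
    _ ≤ n * D ^ e + (C' * n ^ a) * D ^ (e - a) := by
        have : 0 ≤ D ^ (e - a) := by positivity
        have := mul_le_mul_of_nonneg_right hsum this
        linarith
    _ = n * D ^ e + C' * (n ^ a * D ^ (e - a)) := by ring
    _ = _ := by rw [e1, e2]; ring

/-- the exponent for graphs with a given number of vertices -/
noncomputable def ev (k a : ℕ) : ℝ := (k : ℝ) * (2 * a - k + 1) / (2 * a)

theorem ev_step {k a : ℕ} (ha : 1 ≤ a) :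
    1 + ev k a * ((a + 1 : ℕ) - 1) / (a + 1 : ℕ) = ev (k + 1) (a + 1) := by
  unfold ev
  have : (a : ℝ) ≠ 0 := by
    have : (1 : ℝ) ≤ a := by exact_mod_cast ha
    linarith
  have h2 : (a : ℝ) + 1 ≠ 0 := by positivity
  push_cast
  field_simp
  ring

theorem ev_nonneg {k a : ℕ} (h : k ≤ a + 1) : 0 ≤ ev k a := by
  unfold ev
  rcases Nat.eq_zero_or_pos a with rfl | ha
  · simp
  have h1 : (k : ℝ) ≤ a + 1 := by exact_mod_cast h
  have h2 : (1 : ℝ) ≤ a := by exact_mod_cast ha
  have : 0 ≤ 2 * (a : ℝ) - k + 1 := by linarith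
  positivity

theorem ev_le {k a : ℕ} (ha : 1 ≤ a) : ev k a ≤ (a + 1 : ℕ) := by
  unfold ev
  have h2 : (1 : ℝ) ≤ a := by exact_mod_cast ha
  have h4 : (k : ℝ) * (2 * a - k + 1) ≤ a * (a + 1) := by
    have h5 : (0 : ℤ) ≤ ((a : ℤ) - k) * ((a : ℤ) - k + 1) := by
      rcases le_or_gt (k : ℤ) a with h | h
      · apply mul_nonneg <;> linarith
      · apply mul_nonneg_of_nonpos_of_nonpos <;> linarith
    have h6 : (0 : ℝ) ≤ ((a : ℝ) - k) * ((a : ℝ) - k + 1) := by exact_mod_cast h5
    nlinarith
  rw [div_le_iff₀ (by positivity)]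
  push_cast
  nlinarith

theorem U1 : ∀ k : ℕ, ∀ a : ℕ, 1 ≤ a → k ≤ a → ∀ b : ℕ, ∃ C : ℝ, 0 < C ∧
    ∀ (V : Type) [DecidableEq V] (G : SimpleGraph V) (A : Finset V), Loc G a b A →
      (cl G (k + 1) A : ℝ) ≤ C * (A.card : ℝ) ^ ev (k + 1) a := by
  intro k
  induction k with
  | zero =>
    intro a ha _ b
    refine ⟨1, one_pos, ?_⟩
    intro V _ G A _
    have h1 : ev (0 + 1) a = 1 := by
      unfold ev
      have : (a : ℝ) ≠ 0 := by
        have : (1 : ℝ) ≤ a := by exact_mod_cast ha
        linarith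
      push_cast
      field_simp
      ring
    rw [h1, one_mul, Real.rpow_one]
    have h2 := cl_le_sum G 0 A
    have h3 : ∀ v, cl G 0 (nb G A v) ≤ 1 := by
      intro v
      unfold cl
      refine le_trans (Finset.card_le_card (t := {∅}) ?_) (by simp)
      intro S hS
      rw [mem_cls, Finset.card_eq_zero] at hS
      rw [Finset.mem_singleton]
      exact hS.2.1
    have h4 : cl G (0 + 1) A ≤ A.card := by
      refine h2.trans ((Finset.sum_le_sum fun v _ => h3 v).trans ?_)
      simp
    exact_mod_cast h4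
  | succ k ih =>
    intro a ha hka b
    rcases Nat.eq_or_lt_of_le ha with h1 | h1
    · -- `a = 1`
      have hk : k = 0 := by omega
      subst hk
      subst h1
      refine ⟨b + 1, by positivity, ?_⟩
      intro V _ G A hL
      have h2 := cl_le_sum G 1 A
      have h3 : ∀ v ∈ A, cl G 1 (nb G A v) ≤ b := by
        classical
        intro v hv
        have h4 := hL {v} (by simpa using hv) (by simp)
        have h5 : cl G 1 (nb G A v) ≤ (nb G A v).card := by
          unfold cl
          refine le_trans (Finset.card_le_card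
            (t := (nb G A v).image (fun w => ({w} : Finset V))) ?_) Finset.card_image_le
          intro S hS
          rw [mem_cls, Finset.card_eq_one] at hS
          obtain ⟨h6, ⟨w, rfl⟩, _⟩ := hS
          rw [Finset.mem_image]
          exact ⟨w, by simpa using h6, rfl⟩
        refine h5.trans (le_trans (Finset.card_le_card ?_) h4.le)
        intro w hw
        rw [mem_nb] at hw
        rw [Finset.mem_filter]
        refine ⟨hw.1, ?_⟩
        intro t ht
        rw [Finset.mem_singleton] at ht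
        subst ht
        exact hw.2.symm
      have h4 : cl G (0 + 1 + 1) A ≤ A.card * b := by
        refine h2.trans ((Finset.sum_le_sum h3).trans ?_)
        simp
      have h5 : ev (0 + 1 + 1) 1 = 1 := by
        unfold ev
        norm_num
      rw [h5, Real.rpow_one]
      have h6 : (cl G (0 + 1 + 1) A : ℝ) ≤ A.card * b := by exact_mod_cast h4
      have h7 : (0 : ℝ) ≤ A.card := Nat.cast_nonneg _
      nlinarith
    · obtain ⟨a', rfl⟩ : ∃ a', a = a' + 1 := ⟨a - 1, by omega⟩
      have ha' : 1 ≤ a' := by omega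
      obtain ⟨C, hC, hrec⟩ := ih a' ha' (by omega) b
      set C' : ℝ := 1 + (((a' + 1) ^ (a' + 1) * (a' + 1).factorial * b + (a' + 1) ^ (a' + 1) : ℕ) : ℝ)
        with hC'
      have hC'0 : 0 < C' := by positivity
      refine ⟨C * C', by positivity, ?_⟩
      intro V _ G A hL
      rcases A.eq_empty_or_nonempty with rfl | hA
      · have : cl G (k + 1 + 1) (∅ : Finset V) = 0 := by
          have := cl_le_sum G (k + 1) (∅ : Finset V)
          simpa using this
        rw [this]
        simp only [Nat.cast_zero]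
        positivity
      have h2 : (cl G (k + 1 + 1) A : ℝ) ≤ ∑ v ∈ A, (cl G (k + 1) (nb G A v) : ℝ) := by
        exact_mod_cast cl_le_sum G (k + 1) A
      calc (cl G (k + 1 + 1) A : ℝ) ≤ ∑ v ∈ A, (cl G (k + 1) (nb G A v) : ℝ) := h2
        _ ≤ ∑ v ∈ A, C * ((nb G A v).card : ℝ) ^ ev (k + 1) a' :=
            Finset.sum_le_sum fun v hv => hrec V G _ (hL.nb hv)
        _ = C * ∑ v ∈ A, ((nb G A v).card : ℝ) ^ ev (k + 1) a' := by rw [Finset.mul_sum]
        _ ≤ C * (C' * (A.card : ℝ) ^ (1 + ev (k + 1) a' * ((a' + 1 : ℕ) - 1) / (a' + 1 : ℕ))) := by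
            apply mul_le_mul_of_nonneg_left _ hC.le
            exact sum_rpow_le (by omega) hL hA (ev_nonneg (by omega)) (ev_le ha')
        _ = C * C' * (A.card : ℝ) ^ ev (k + 1 + 1) (a' + 1) := by
            rw [ev_step ha', mul_assoc]

end Pool.Agent.TH998.Mex
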